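import Pool.Agent.T2h17.HW.Core
import Pool.Agent.Y119.HY.Grp

/-!
Filtrations, Hodge operators, families which span a subspace of matrices; the theorem at generic
points.
-/

set_option autoImplicit false
set_option maxHeartbeats 400000

open Matrix Filter

namespace Pool.Agent.T2h17.HW

/-- the step of the filtration spanned by the rows of level at least `p` -/
def Fil {n : ℕ} (lev : Fin n → ℤ) (P : Matrix (Fin n) (Fin n) ℂ) (p : ℤ) :
    Submodule ℂ (Fin n → ℂ) :=
  Submodule.span ℂ {v | ∃ i : Fin n, p ≤ lev i ∧ v = P i}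

theorem mem_Fil {n : ℕ} {lev : Fin n → ℤ} {P : Matrix (Fin n) (Fin n) ℂ} {p : ℤ} {v : Fin n → ℂ}
    (hv : v ∈ Fil lev P p) : ∃ w : Fin n → ℂ, (∀ i, lev i < p → w i = 0) ∧ v = w ᵥ* P := by
  unfold Fil at hv
  induction hv using Submodule.span_induction with
  | mem v h =>
    obtain ⟨i, hi, rfl⟩ := h
    refine ⟨Pi.single i 1, fun j hj => ?_, ?_⟩
    · rw [Pi.single_eq_of_ne]
      rintro rfl
      omega
    · rw [Matrix.single_one_vecMul]
      rfl
  | zero => exact ⟨0, fun _ _ => rfl, (zero_vecMul _).symm⟩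
  | add v v' _ _ h h' =>
    obtain ⟨w, h1, rfl⟩ := h
    obtain ⟨w', h1', rfl⟩ := h'
    exact ⟨w + w', fun i hi => by rw [Pi.add_apply, h1 i hi, h1' i hi, add_zero],
      (add_vecMul _ _ _).symm⟩
  | smul c v _ h =>
    obtain ⟨w, h1, rfl⟩ := h
    exact ⟨c • w, fun i hi => by rw [Pi.smul_apply, h1 i hi, smul_zero], (smul_vecMul _ _ _).symm⟩

/-- the shape of the Hodge operator -/
theorem hodge_shape {n : ℕ} {lev : Fin n → ℤ} {P Φ : Matrix (Fin n) (Fin n) ℂ} (hP : P.det ≠ 0)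
    (hΦ : ∀ p, ∀ v ∈ Fil lev P p, v ᵥ* Φ - (p : ℂ) • v ∈ Fil lev P (p + 1)) :
    ∃ Φ0 : Matrix (Fin n) (Fin n) ℂ, P * Φ = Φ0 * P ∧
      Up lev 1 (Φ0 - diagonal fun a => ((lev a : ℤ) : ℂ)) := by
  have hu : IsUnit P.det := isUnit_iff_ne_zero.2 hP
  have h1 : ∀ i : Fin n, ∃ w : Fin n → ℂ, (∀ j, lev j < lev i + 1 → w j = 0) ∧
      P i ᵥ* Φ - ((lev i : ℤ) : ℂ) • P i = w ᵥ* P := fun i =>
    mem_Fil (hΦ (lev i) (P i) (Submodule.subset_span ⟨i, le_rfl, rfl⟩))
  choose w hw1 hw2 using h1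
  refine ⟨Matrix.of w + diagonal fun a => ((lev a : ℤ) : ℂ), ?_, ?_⟩
  · ext i j
    have h2 := congrFun (hw2 i) j
    rw [Pi.sub_apply, Pi.smul_apply, sub_eq_iff_eq_add] at h2
    rw [Matrix.add_mul, Matrix.add_apply, Matrix.diagonal_mul]
    exact h2
  · rw [add_sub_cancel_right]
    exact fun a b hab => hw1 a b hab

/-- a subspace of matrices is the span of a family with one member for every entry -/
theorem exists_fam {ι : Type} [Fintype ι] [DecidableEq ι] (V : Submodule ℚ (Matrix ι ι ℚ)) :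
    ∃ x : ι × ι → Matrix ι ι ℚ, Submodule.span ℚ (Set.range x) = V := by
  obtain ⟨g, hg⟩ := V.subtype.exists_leftInverse_of_injective
    (LinearMap.ker_eq_bot.2 V.injective_subtype)
  have hg' : ∀ v : V, g (v : Matrix ι ι ℚ) = v := fun v => by
    have := DFunLike.congr_fun hg v
    simpa using this
  refine ⟨fun a => (g (Matrix.single a.1 a.2 (1 : ℚ)) : Matrix ι ι ℚ), le_antisymm ?_ ?_⟩
  · rw [Submodule.span_le]
    rintro _ ⟨a, rfl⟩
    exact (g _).2
  · intro v hv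
    have h1 : (g v : Matrix ι ι ℚ) = v := congrArg Subtype.val (hg' ⟨v, hv⟩)
    rw [← h1]
    have h2 : v = ∑ i, ∑ j, v i j • Matrix.single i j (1 : ℚ) := by
      conv_lhs => rw [Matrix.matrix_eq_sum_single v]
      refine Finset.sum_congr rfl fun i _ => Finset.sum_congr rfl fun j _ => ?_
      rw [Matrix.smul_single, smul_eq_mul, mul_one]
    rw [h2, map_sum, AddSubmonoidClass.coe_finsetSum]
    refine Submodule.sum_mem _ fun i _ => ?_
    rw [map_sum, AddSubmonoidClass.coe_finsetSum]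
    refine Submodule.sum_mem _ fun j _ => ?_
    rw [map_smul, Submodule.coe_smul]
    exact Submodule.smul_mem _ _ (Submodule.subset_span ⟨(i, j), rfl⟩)

theorem span_tc {ι : Type} (s : Set (Matrix ι ι ℚ)) {M : Matrix ι ι ℚ}
    (hM : M ∈ Submodule.span ℚ s) : tc M ∈ Submodule.span ℂ (tc '' s) := by
  induction hM using Submodule.span_induction with
  | mem M h => exact Submodule.subset_span ⟨M, h, rfl⟩
  | zero =>
    have h1 : tc (0 : Matrix ι ι ℚ) = 0 := by
      ext i j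
      simp [tc]
    rw [h1]
    exact Submodule.zero_mem _
  | add A B _ _ hA hB =>
    have h1 : tc (A + B) = tc A + tc B := by
      ext i j
      simp [tc]
    rw [h1]
    exact Submodule.add_mem _ hA hB
  | smul c A _ hA =>
    have h1 : tc (c • A) = (c : ℂ) • tc A := by
      ext i j
      simp [tc]
    rw [h1]
    exact Submodule.smul_mem _ _ hA

/-- the complexification of a rational subspace -/
theorem span_image {ι : Type} (V : Submodule ℚ (Matrix ι ι ℚ)) {τ : Type} {x : τ → Matrix ι ι ℚ}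
    (hx : Submodule.span ℚ (Set.range x) = V) :
    Submodule.span ℂ (tc '' (V : Set (Matrix ι ι ℚ))) = Submodule.span ℂ (Set.range fun a => tc (x a)) := by
  have h0 : (Set.range fun a => tc (x a)) = tc '' Set.range x := by
    rw [← Set.range_comp]
    rfl
  rw [h0]
  apply le_antisymm
  · rw [Submodule.span_le]
    rintro _ ⟨M, hM, rfl⟩
    refine span_tc _ ?_
    rw [hx]
    exact hM
  · refine Submodule.span_mono (Set.image_mono ?_)
    rw [← hx]
    exact Submodule.subset_span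

theorem En_E {n : ℕ} (N : Matrix (Fin n) (Fin n) ℂ) (s : ℂ) : En N s = Pool.Agent.Y119.HY.E N s := rfl

/-- the conclusion at the points `α_j = exp l_j`, for one rational structure -/
def Concl {n k : ℕ} (N : Matrix (Fin n) (Fin n) ℚ) (𝒩 : Set (Matrix (Fin n) (Fin n) ℂ))
    (lev : Fin n → ℤ) (C : Matrix (Fin n) (Fin n) ℂ) (h : Fin k → Matrix (Fin n) (Fin n) ℂ)
    (l : Fin k → ℂ) : Prop :=
  ∀ Φ : Fin k → Matrix (Fin n) (Fin n) ℂ,
    (∀ j p, ∀ v ∈ Fil lev (h j * En (tc N) (-l j) * C) p,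
      v ᵥ* Φ j - (p : ℂ) • v ∈ Fil lev (h j * En (tc N) (-l j) * C) (p + 1)) →
    ∀ 𝔪 : Submodule ℚ (Matrix (Fin n × Fin k) (Fin n × Fin k) ℚ),
    (∀ X ∈ 𝔪, ∀ Y ∈ 𝔪, X * Y - Y * X ∈ 𝔪) →
    blockDiagonal Φ ∈ Submodule.span ℂ (tc '' (𝔪 : Set (Matrix (Fin n × Fin k) (Fin n × Fin k) ℚ))) →
    ∀ Y : Fin k → Matrix (Fin n) (Fin n) ℂ,
    (∀ j, C * Y j * C⁻¹ ∈ Submodule.span ℂ (𝒩 ∪ {tc N})) →
    ∀ i : ℂ, (∀ m : ℕ, i ≠ (m : ℂ)) → (∀ j, Y j * Φ j - Φ j * Y j = i • Y j) →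
    blockDiagonal Y ∈ Submodule.span ℂ (tc '' (𝔪 : Set (Matrix (Fin n × Fin k) (Fin n × Fin k) ℚ)))

/-- **the theorem at points which are generic in bounded degree** -/
theorem core {n : ℕ} (k : ℕ) {N : Matrix (Fin n) (Fin n) ℚ} (hN : N ^ n = 0)
    {𝒩 : Set (Matrix (Fin n) (Fin n) ℂ)} (hn : ∀ X ∈ 𝒩, X ^ n = 0)
    (hconj : ∀ X ∈ 𝒩, ∀ s, En (tc N) s * X * En (tc N) (-s) ∈ Submodule.span ℂ 𝒩)
    (lev : Fin n → ℤ) : ∃ d : ℕ, ∀ (C : Matrix (Fin n) (Fin n) ℂ)
      (h : Fin k → Matrix (Fin n) (Fin n) ℂ) (l : Fin k → ℂ), C.det ≠ 0 → (∀ j, (h j).det ≠ 0) →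
      Gen 𝒩 d C h l → Concl N 𝒩 lev C h l := by
  classical
  have hNc : tc N ^ n = 0 := by
    rw [← tc_pow, hN]
    ext i j
    simp [tc]
  have hE : ∀ s, En (tc N) s * En (tc N) (-s) = 1 := fun s =>
    Pool.Agent.Y119.HY.E_mul_neg hNc s
  have hdetE : ∀ s, (En (tc N) s).det ≠ 0 := by
    intro s h0
    have h1 := congrArg Matrix.det (hE s)
    rw [Matrix.det_mul, h0, zero_mul, Matrix.det_one] at h1
    exact zero_ne_one h1
  have hconj' : ∀ X ∈ Submodule.span ℂ 𝒩, ∀ s,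
      En (tc N) s * X * En (tc N) (-s) ∈ Submodule.span ℂ 𝒩 := by
    intro X hX s
    induction hX using Submodule.span_induction with
    | mem X h => exact hconj X h s
    | zero =>
      rw [Matrix.mul_zero, Matrix.zero_mul]
      exact Submodule.zero_mem _
    | add A B _ _ hA hB =>
      rw [Matrix.mul_add, Matrix.add_mul]
      exact Submodule.add_mem _ hA hB
    | smul c A _ hA =>
      rw [Matrix.mul_smul, Matrix.smul_mul]
      exact Submodule.smul_mem _ _ hA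
  by_contra hcon
  push Not at hcon
  have h1 : ∀ d : ℕ, Nonempty (Bad (k := k) N 𝒩 lev d) := by
    intro d
    obtain ⟨C, h, l, hC, hh, hG, hnot⟩ := hcon d
    unfold Concl at hnot
    push Not at hnot
    obtain ⟨Φ, hΦ, 𝔪, hbr, hmem, Y, hY, i, hi, heig, hnot⟩ := hnot
    have hdet : ∀ j, (h j * En (tc N) (-l j) * C).det ≠ 0 := by
      intro j
      rw [Matrix.det_mul, Matrix.det_mul]
      exact mul_ne_zero (mul_ne_zero (hh j) (hdetE _)) hC
    choose Φ0 hΦ1 hΦ2 using fun j => hodge_shape (hdet j) (hΦ j)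
    obtain ⟨x, hx⟩ := exists_fam 𝔪
    have hxm : ∀ a, x a ∈ 𝔪 := fun a => by
      rw [← hx]
      exact Submodule.subset_span ⟨a, rfl⟩
    have h2 : ∀ j, ∃ (Z : Matrix (Fin n) (Fin n) ℂ) (μ : ℂ), Z ∈ Submodule.span ℂ 𝒩 ∧
        C * Y j * C⁻¹ = Z + μ • tc N := by
      intro j
      have h3 := hY j
      rw [Submodule.span_union, Submodule.mem_sup] at h3
      obtain ⟨Z, hZ, W, hW, h4⟩ := h3
      obtain ⟨μ, rfl⟩ := Submodule.mem_span_singleton.1 hW
      exact ⟨Z, μ, hZ, h4.symm⟩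
    choose Z μ hZ hZY using h2
    rw [span_image 𝔪 hx] at hmem hnot
    exact ⟨{ C := C, h := h, l := l, Φ := Φ, Φ0 := Φ0, Y := Y, Z := Z, μ := μ, x := x, i := i
             hC := hC, hh := hh, hG := hG, hΦ := hΦ1, hsh := hΦ2
             hbr := fun a b => by
               rw [hx]
               exact hbr _ (hxm a) _ (hxm b)
             hmem := hmem, hZ := hZ
             hY := fun j => by
               rw [← hZY j, Matrix.mul_assoc _ C⁻¹, Matrix.nonsing_inv_mul _ (isUnit_iff_ne_zero.2 hC),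
                 Matrix.mul_one]
             hi := hi, heig := heig, hnot := hnot }⟩
  exact no_bad hN hn hconj' hE fun d => (h1 d).some

end Pool.Agent.T2h17.HW
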