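import Pool.Agent.T2h17.HW.Tan
import Pool.Agent.Y916.Al.Ev

/-!
Preparations: transcendence degree, non-vanishing of convergent series near the origin.
-/

set_option autoImplicit false
set_option maxHeartbeats 400000

open Matrix PowerSeries

namespace Pool.Agent.T2h17.HW

open Pool.Agent.Y916.Al (evc Cvc ev_C)

/-! ### transcendence degree -/

open scoped IntermediateField.algebraAdjoinAdjoin in
theorem trdeg_one (x : ℂ) : Algebra.trdeg ℚ (IntermediateField.adjoin ℚ {x}) ≤ 1 := by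
  have h1 : Algebra.trdeg ℚ (Algebra.adjoin ℚ ({x} : Set ℂ)) ≤ 1 := by
    have hs : Function.Surjective ((Polynomial.aeval x : Polynomial ℚ →ₐ[ℚ] ℂ).codRestrict
        (Algebra.adjoin ℚ {x}) fun p => Polynomial.aeval_mem_adjoin_singleton ℚ x) := by
      rintro ⟨y, hy⟩
      rw [Algebra.adjoin_singleton_eq_range_aeval] at hy
      obtain ⟨p, hp⟩ := hy
      exact ⟨p, Subtype.ext hp⟩
    refine (trdeg_le_of_surjective _ hs).trans ?_
    rw [Polynomial.trdeg_of_isDomain]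
  have h2 := _root_.trdeg_add_eq (R := ℚ) (S := Algebra.adjoin ℚ ({x} : Set ℂ))
    (A := IntermediateField.adjoin ℚ {x})
  have h3 : Algebra.trdeg (Algebra.adjoin ℚ ({x} : Set ℂ)) (IntermediateField.adjoin ℚ {x}) = 0 :=
    trdeg_eq_zero
  rw [h3, add_zero] at h2
  rw [← h2]
  exact h1

/-! ### non-vanishing -/

theorem cvc_near {f : ℚ⟦X⟧} {C : ℝ} (hC : 1 ≤ C) (hf : ∀ m, |((coeff m f : ℚ) : ℝ)| ≤ C ^ (m + 1))
    {z : ℂ} (hz : C * ‖z‖ < 1) : Cvc z f := by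
  refine Cvc.of_bound (A := C) (B := C) (by linarith) hz fun m => ?_
  have h1 : ‖((coeff m f : ℚ) : ℂ)‖ = |((coeff m f : ℚ) : ℝ)| := by
    have h2 : ((coeff m f : ℚ) : ℂ) = (((coeff m f : ℚ) : ℝ) : ℂ) := by push_cast; rfl
    rw [h2, Complex.norm_real, Real.norm_eq_abs]
  rw [h1]
  refine (hf m).trans (le_of_eq ?_)
  ring

/-- a nonzero convergent series has no zeros in a punctured neighbourhood of the origin -/
theorem evc_ne {f : ℚ⟦X⟧} {C : ℝ} (hC : 1 ≤ C) (hf : ∀ m, |((coeff m f : ℚ) : ℝ)| ≤ C ^ (m + 1))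
    (h0 : f ≠ 0) : ∃ ρ : ℝ, 0 < ρ ∧ ∀ z : ℂ, z ≠ 0 → ‖z‖ < ρ → evc z f ≠ 0 := by
  classical
  have hex : ∃ m, coeff m f ≠ 0 := by
    by_contra hcon
    push Not at hcon
    exact h0 (PowerSeries.ext fun m => by rw [hcon m, map_zero])
  set m := Nat.find hex with hm
  have hm1 : coeff m f ≠ 0 := Nat.find_spec hex
  have hm2 : ∀ i < m, coeff i f = 0 := fun i hi => by
    by_contra h
    exact Nat.find_min hex hi h
  set c : ℝ := ‖((coeff m f : ℚ) : ℂ)‖ with hc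
  have hc0 : 0 < c := by
    rw [hc, norm_pos_iff]
    exact_mod_cast hm1
  have hCp : (0 : ℝ) < C ^ (m + 2) := by positivity
  refine ⟨min (1 / (2 * C)) (c / (2 * C ^ (m + 2))), by positivity, fun z hz hzr h1 => ?_⟩
  have hz0 : 0 < ‖z‖ := norm_pos_iff.2 hz
  have hz1 : C * ‖z‖ < 1 / 2 := by
    have h2 := lt_of_lt_of_le hzr (min_le_left _ _)
    rw [lt_div_iff₀ (by linarith)] at h2
    linarith
  have hz2 : 2 * C ^ (m + 2) * ‖z‖ < c := by
    have h2 := lt_of_lt_of_le hzr (min_le_right _ _)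
    rw [lt_div_iff₀ (by positivity)] at h2
    linarith
  have hcv := cvc_near hC hf (z := z) (by linarith)
  have hsum := hcv.summable
  have h2 := hsum.sum_add_tsum_nat_add (m + 1)
  have h3 : ∑ i ∈ Finset.range (m + 1), ((coeff i f : ℚ) : ℂ) * z ^ i = ((coeff m f : ℚ) : ℂ) * z ^ m := by
    rw [Finset.sum_range_succ, Finset.sum_eq_zero, zero_add]
    intro i hi
    rw [hm2 i (Finset.mem_range.1 hi), Rat.cast_zero, zero_mul]
  have h4 : ((coeff m f : ℚ) : ℂ) * z ^ m =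
      -∑' i : ℕ, ((coeff (i + (m + 1)) f : ℚ) : ℂ) * z ^ (i + (m + 1)) := by
    rw [← h3]
    have h5 : ∑' i : ℕ, ((coeff i f : ℚ) : ℂ) * z ^ i = 0 := h1
    rw [h5] at h2
    exact eq_neg_of_add_eq_zero_left h2
  have hgeo : Summable fun i : ℕ => C ^ (m + 2) * ‖z‖ ^ (m + 1) * (C * ‖z‖) ^ i :=
    (summable_geometric_of_lt_one (by positivity) (by linarith)).mul_left _
  have h5 : ‖∑' i : ℕ, ((coeff (i + (m + 1)) f : ℚ) : ℂ) * z ^ (i + (m + 1))‖ ≤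
      ∑' i : ℕ, C ^ (m + 2) * ‖z‖ ^ (m + 1) * (C * ‖z‖) ^ i := by
    refine tsum_of_norm_bounded hgeo.hasSum fun i => ?_
    rw [norm_mul, norm_pow]
    have h6 : ‖((coeff (i + (m + 1)) f : ℚ) : ℂ)‖ ≤ C ^ (i + (m + 1) + 1) := by
      have h7 : ((coeff (i + (m + 1)) f : ℚ) : ℂ) = (((coeff (i + (m + 1)) f : ℚ) : ℝ) : ℂ) := by
        push_cast; rfl
      rw [h7, Complex.norm_real, Real.norm_eq_abs]
      exact hf _
    calc ‖((coeff (i + (m + 1)) f : ℚ) : ℂ)‖ * ‖z‖ ^ (i + (m + 1)) ≤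
          C ^ (i + (m + 1) + 1) * ‖z‖ ^ (i + (m + 1)) := mul_le_mul_of_nonneg_right h6 (by positivity)
      _ = C ^ (m + 2) * ‖z‖ ^ (m + 1) * (C * ‖z‖) ^ i := by
          rw [mul_pow]
          ring
  rw [tsum_mul_left, tsum_geometric_of_lt_one (by positivity) (by linarith)] at h5
  have h6 : (1 - C * ‖z‖)⁻¹ ≤ 2 := by
    rw [inv_le_comm₀ (by linarith) (by norm_num)]
    linarith
  have h7 : c * ‖z‖ ^ m ≤ C ^ (m + 2) * ‖z‖ ^ (m + 1) * 2 := by
    have h8 := congrArg norm h4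
    rw [norm_mul, norm_pow, norm_neg] at h8
    rw [hc, h8]
    exact h5.trans (mul_le_mul_of_nonneg_left h6 (by positivity))
  have h8 : c * ‖z‖ ^ m ≤ (2 * C ^ (m + 2) * ‖z‖) * ‖z‖ ^ m := by
    refine h7.trans (le_of_eq ?_)
    ring
  have h9 := le_of_mul_le_mul_right h8 (by positivity)
  linarith

/-- the value of the determinant -/
theorem evc_det {n : ℕ} {H : Matrix (Fin n) (Fin n) ℚ⟦X⟧} {z : ℂ} (h : ∀ i j, Cvc z (H i j)) :
    evc z H.det = (Matrix.of fun i j => evc z (H i j)).det := by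
  rw [Matrix.det_apply', Matrix.det_apply']
  have h1 : ∀ σ : Equiv.Perm (Fin n), (((Equiv.Perm.sign σ : ℤ) : ℚ⟦X⟧)) =
      C (((Equiv.Perm.sign σ : ℤ) : ℚ)) := fun σ => by simp
  have h2 : ∀ σ : Equiv.Perm (Fin n), Cvc z ((((Equiv.Perm.sign σ : ℤ) : ℚ⟦X⟧)) * ∏ i, H (σ i) i) := by
    intro σ
    rw [h1]
    exact (Cvc.C _).mul (Cvc.prod _ _ fun i _ => h _ _)
  rw [Cvc.ev_sum _ _ fun σ _ => h2 σ]
  refine Finset.sum_congr rfl fun σ _ => ?_
  rw [h1, (Cvc.C _).ev_mul (Cvc.prod _ _ fun i _ => h _ _), ev_C, Cvc.ev_prod _ _ fun i _ => h _ _]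
  push_cast
  rfl

/-- convergence gives geometric growth -/
theorem growth_of_cvc {f : ℚ⟦X⟧} {r : ℝ} (hr : 0 < r) (h : Cvc (r : ℂ) f) :
    ∃ C : ℝ, 1 ≤ C ∧ ∀ m, |((coeff m f : ℚ) : ℝ)| ≤ C ^ (m + 1) := by
  unfold Cvc at h
  set S := ∑' m : ℕ, ‖((coeff m f : ℚ) : ℂ)‖ * ‖(r : ℂ)‖ ^ m with hS
  have hrn : ‖(r : ℂ)‖ = r := by
    rw [Complex.norm_real, Real.norm_eq_abs, abs_of_pos hr]
  have hS0 : 0 ≤ S := tsum_nonneg fun m => by positivity
  refine ⟨max 1 (max S (1 / r)), le_max_left _ _, fun m => ?_⟩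
  set C := max 1 (max S (1 / r)) with hC
  have hC1 : 1 ≤ C := le_max_left _ _
  have hCS : S ≤ C := (le_max_left _ _).trans (le_max_right _ _)
  have hCr : 1 / r ≤ C := (le_max_right _ _).trans (le_max_right _ _)
  have h1 : ‖((coeff m f : ℚ) : ℂ)‖ * r ^ m ≤ S := by
    have h2 := h.le_tsum m fun j _ => by positivity
    rw [hS]
    simp only [hrn] at h2 ⊢
    exact h2
  have h2 : ‖((coeff m f : ℚ) : ℂ)‖ = |((coeff m f : ℚ) : ℝ)| := by
    have h3 : ((coeff m f : ℚ) : ℂ) = (((coeff m f : ℚ) : ℝ) : ℂ) := by push_cast; rfl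
    rw [h3, Complex.norm_real, Real.norm_eq_abs]
  rw [h2] at h1
  have h3 : |((coeff m f : ℚ) : ℝ)| ≤ S * (1 / r) ^ m := by
    have h4 : (0 : ℝ) < r ^ m := by positivity
    rw [one_div, inv_pow, ← div_eq_mul_inv, le_div_iff₀ h4]
    exact h1
  calc |((coeff m f : ℚ) : ℝ)| ≤ S * (1 / r) ^ m := h3
    _ ≤ C * C ^ m := mul_le_mul hCS (pow_le_pow_left₀ (by positivity) hCr m) (by positivity)
        (by linarith)
    _ = C ^ (m + 1) := by ring

/-- **the matrix of values is invertible near the origin** -/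
theorem det_near {n : ℕ} {H : Matrix (Fin n) (Fin n) ℚ⟦X⟧}
    (hsz : ∃ C : ℝ, ∀ i j m, |((coeff m (H i j) : ℚ) : ℝ)| ≤ C ^ (m + 1)) (h0 : H.det ≠ 0) :
    ∃ ρ : ℝ, 0 < ρ ∧ ∀ z : ℂ, z ≠ 0 → ‖z‖ < ρ → (Matrix.of fun i j => evc z (H i j)).det ≠ 0 := by
  obtain ⟨C', hC'⟩ := hsz
  set C : ℝ := max 1 |C'| with hCdef
  have hC1 : 1 ≤ C := le_max_left _ _
  have hC : ∀ i j m, |((coeff m (H i j) : ℚ) : ℝ)| ≤ C ^ (m + 1) := by
    intro i j m
    refine (hC' i j m).trans ((le_abs_self _).trans ?_)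
    rw [abs_pow]
    exact pow_le_pow_left₀ (abs_nonneg _) (le_max_right _ _) _
  have hcv : ∀ z : ℂ, C * ‖z‖ < 1 → ∀ i j, Cvc z (H i j) := fun z hz i j =>
    cvc_near hC1 (hC i j) hz
  have hdet : ∀ z : ℂ, C * ‖z‖ < 1 → Cvc z H.det := by
    intro z hz
    rw [Matrix.det_apply']
    have h1 : ∀ σ : Equiv.Perm (Fin n), (((Equiv.Perm.sign σ : ℤ) : ℚ⟦X⟧)) =
        PowerSeries.C (((Equiv.Perm.sign σ : ℤ) : ℚ)) := fun σ => by simp
    refine Cvc.sum _ _ fun σ _ => ?_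
    rw [h1]
    exact (Cvc.C _).mul (Cvc.prod _ _ fun i _ => hcv z hz _ _)
  have hr : (0 : ℝ) < 1 / (2 * C) := by positivity
  obtain ⟨C₂, hC₂, h1⟩ := growth_of_cvc hr (hdet ((1 / (2 * C) : ℝ) : ℂ) (by
    rw [Complex.norm_real, Real.norm_eq_abs, abs_of_pos hr]
    have : C * (1 / (2 * C)) = 1 / 2 := by field_simp
    rw [this]
    norm_num))
  obtain ⟨ρ, hρ, h2⟩ := evc_ne hC₂ h1 h0
  refine ⟨min ρ (1 / C), by positivity, fun z hz hzr => ?_⟩
  have h3 : C * ‖z‖ < 1 := by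
    have h4 := lt_of_lt_of_le hzr (min_le_right _ _)
    rw [lt_div_iff₀ (by linarith)] at h4
    linarith
  rw [← evc_det (hcv z h3)]
  exact h2 z hz (lt_of_lt_of_le hzr (min_le_left _ _))

end Pool.Agent.T2h17.HW
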