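import Pool.Agent.T2h17.HW.Orb
import Pool.Agent.T2h17.HW.Pre
import Pool.Agent.T2h17.CM.One
import Pool.Agent.Y916.Af.Gs3
import Pool.Agent.Y916.Sl.Many

/-!
The period matrices at almost all points of a window, and at almost all tuples of algebraic integers,
are generic in bounded degree.
-/

set_option autoImplicit false
set_option maxHeartbeats 800000

open Matrix PowerSeries

namespace Pool.Agent.T2h17.HW

open Pool.Agent.Y916.Al (Ht evc)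
open Pool.Agent.Y916.Af (NRh SZ Vc ptc IrrD ExcD)
open Pool.Agent.T2h17.CM (hh Hz)

variable {n : ℕ}

/-- the relations are invariant under the group -/
def InvR (H : Matrix (Fin n) (Fin n) ℚ⟦X⟧) (𝒩 : Set (Matrix (Fin n) (Fin n) ℂ)) (ρ : ℝ) : Prop :=
  ∀ R : MvPolynomial (Fin n × Fin n) (Polynomial ℚ),
    MvPolynomial.aeval (fun a : Fin n × Fin n => H a.1 a.2) R = 0 → ∀ z : ℂ, ‖z‖ < ρ →
    ∀ g ∈ Grp 𝒩, MvPolynomial.eval₂ (Polynomial.aeval z : Polynomial ℚ →ₐ[ℚ] ℂ).toRingHom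
      (fun a => (Hz H z * g) a.1 a.2) R = 0

theorem inv_vc {H : Matrix (Fin n) (Fin n) ℚ⟦X⟧} {𝒩 : Set (Matrix (Fin n) (Fin n) ℂ)} {ρ : ℝ}
    (hinv : InvR H 𝒩 ρ) {z : ℂ} (hz : ‖z‖ < ρ) {g : Matrix (Fin n) (Fin n) ℂ} (hg : g ∈ Grp 𝒩) :
    (fun i => (Hz H z * g) (finProdFinEquiv.symm i).1 (finProdFinEquiv.symm i).2) ∈ Vc (hh H) z := by
  intro R hR
  have h1 := hinv (MvPolynomial.rename finProdFinEquiv.symm R) (by
    rw [MvPolynomial.aeval_rename]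
    exact hR) z hz g hg
  rw [MvPolynomial.eval₂_rename] at h1
  exact h1

/-- the set of the points of the orbit -/
def YY {k : ℕ} (𝒩 : Set (Matrix (Fin n) (Fin n) ℂ)) (h : Fin k → Matrix (Fin n) (Fin n) ℂ) :
    Set (Fin k × Option (Fin (n * n)) → ℂ) :=
  {y | ∀ j, (fun o => y (j, o)) ∈ {y : Option (Fin (n * n)) → ℂ |
    (fun s => y (some s)) ∈ Orb 𝒩 (h j) (finProdFinEquiv.symm : Fin (n * n) → Fin n × Fin n)}}

theorem yy_irr {k : ℕ} (𝒩 : Set (Matrix (Fin n) (Fin n) ℂ)) (h : Fin k → Matrix (Fin n) (Fin n) ℂ)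
    (d : ℕ) : IrrD d (YY 𝒩 h) :=
  Pool.Agent.Y916.Af.prod_irrD _ fun _ => Pool.Agent.Y916.Af.opt_irrD _
    (Pool.Agent.Y916.Af.irrD_of_irr (orb_irr 𝒩 _ _) d)

/-- the point with given matrices and logarithms -/
def yp {k : ℕ} (h : Fin k → Matrix (Fin n) (Fin n) ℂ) (t : Fin k → ℂ) :
    Fin k × Option (Fin (n * n)) → ℂ := fun b => b.2.elim (t b.1) fun s =>
  h b.1 (finProdFinEquiv.symm s).1 (finProdFinEquiv.symm s).2

theorem yp_mem {k : ℕ} {𝒩 : Set (Matrix (Fin n) (Fin n) ℂ)} {h g : Fin k → Matrix (Fin n) (Fin n) ℂ}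
    (hg : ∀ j, g j ∈ Grp 𝒩) (t : Fin k → ℂ) : yp (fun j => h j * g j) t ∈ YY 𝒩 h :=
  fun j => ⟨g j, hg j, rfl⟩

theorem yp_ptc {k : ℕ} (H : Matrix (Fin n) (Fin n) ℚ⟦X⟧) (α ℓ : Fin k → ℂ) :
    ptc (hh H) α ℓ = yp (fun j => Hz H (1 / α j)) ℓ := by
  funext ⟨j, o⟩
  rcases o with _ | s <;> rfl

theorem yp_ptc_mem {k : ℕ} (𝒩 : Set (Matrix (Fin n) (Fin n) ℂ)) (H : Matrix (Fin n) (Fin n) ℚ⟦X⟧)
    (α ℓ : Fin k → ℂ) : ptc (hh H) α ℓ ∈ YY 𝒩 fun j => Hz H (1 / α j) := by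
  have h1 := yp_mem (𝒩 := 𝒩) (h := fun j => Hz H (1 / α j)) (g := fun _ => 1)
    (fun _ => (Grp 𝒩).one_mem) ℓ
  simp only [Matrix.mul_one] at h1
  rwa [yp_ptc]

theorem yy_vc {k : ℕ} {𝒩 : Set (Matrix (Fin n) (Fin n) ℂ)} {H : Matrix (Fin n) (Fin n) ℚ⟦X⟧} {ρ : ℝ}
    (hinv : InvR H 𝒩 ρ) {α : Fin k → ℂ} (hα : ∀ j, ‖1 / α j‖ < ρ) :
    ∀ y ∈ YY 𝒩 (fun j => Hz H (1 / α j)), ∀ j, (fun i => y (j, some i)) ∈ Vc (hh H) (1 / α j) := by
  intro y hy j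
  obtain ⟨g, hg, h1⟩ := hy j
  have h2 : (fun i => y (j, some i)) = fun i =>
      (Hz H (1 / α j) * g) (finProdFinEquiv.symm i).1 (finProdFinEquiv.symm i).2 := h1
  rw [h2]
  exact inv_vc hinv (hα j) hg

/-! ### windows -/

/-- **windows** -/
theorem win_gen {H : Matrix (Fin n) (Fin n) ℚ⟦X⟧} (hnr : NRh (hh H)) (hsz : SZ (hh H))
    {𝒩 : Set (Matrix (Fin n) (Fin n) ℂ)} {ρ : ℝ} (hρ : 0 < ρ) (hinv : InvR H 𝒩 ρ) :
    ∃ G0 : ℕ, 1 ≤ G0 ∧ ∀ G : ℕ, G0 ≤ G → ∀ k m A d : ℕ, ∃ E : ℕ, ∀ (W : ℕ) (ξ : ℂ),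
      ((W : ℝ) + 2) ^ E ≤ ‖ξ‖ →
      (∀ u ≤ W, ‖1 / (ξ - ((G * u : ℕ) : ℂ))‖ < ρ ∧ ξ - ((G * u : ℕ) : ℂ) ≠ 0) ∧ (Ht m A ξ →
      ∀ C : Matrix (Fin n) (Fin n) ℂ, ∃ S : Finset ℕ, S.card ≤ n * n + 2 ∧
      ∀ u : Fin k → ℕ, Function.Injective u → (∀ j, 1 ≤ u j ∧ u j ≤ W ∧ u j ∉ S) →
      ∀ ℓ : Fin k → ℂ, (∀ j, Complex.exp (ℓ j) = ξ - ((G * u j : ℕ) : ℂ)) →
      Gen 𝒩 d C (fun j => Hz H (1 / (ξ - ((G * u j : ℕ) : ℂ)))) ℓ) := by
  classical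
  obtain ⟨G0, hG0, hwin⟩ := Pool.Agent.Y916.Af.winDs hnr hsz
  refine ⟨G0, hG0, fun G hG k m A d => ?_⟩
  obtain ⟨δ₁, Ex, hE⟩ := hwin G hG 0 Fin.elim0 (n * n) k m 1 d A
  obtain ⟨B, hB⟩ := exists_nat_gt (1 / ρ)
  refine ⟨Ex + G + 1 + B + 1, fun W ξ hξ => ?_⟩
  have hW0 : (0 : ℝ) ≤ W := Nat.cast_nonneg W
  have hW2 : (2 : ℝ) ≤ (W : ℝ) + 2 := by linarith
  have hW1 : (1 : ℝ) ≤ (W : ℝ) + 2 := by linarith
  have h2n : ∀ a : ℕ, (a : ℝ) + 1 ≤ ((W : ℝ) + 2) ^ a := fun a => by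
    refine le_trans ?_ (pow_le_pow_left₀ (by norm_num) hW2 a)
    exact_mod_cast Nat.lt_two_pow_self (n := a)
  have hbig : ((W : ℝ) + 2) ^ Ex ≤ ‖ξ‖ := (pow_le_pow_right₀ hW1 (by omega)).trans hξ
  have hsep : (G : ℝ) * W + (B + 1) ≤ ‖ξ‖ := by
    refine le_trans ?_ ((pow_le_pow_right₀ hW1 (show G + 1 + B + 1 ≤ Ex + G + 1 + B + 1 by omega)).trans hξ)
    have h1 := h2n G
    have h2 := h2n B
    have h3 : (G : ℝ) * W + 1 ≤ ((W : ℝ) + 2) ^ (G + 1) := by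
      rw [pow_succ]
      have hG' : (0 : ℝ) ≤ G := Nat.cast_nonneg G
      nlinarith
    have h4 : (1 : ℝ) ≤ ((W : ℝ) + 2) ^ (G + 1) := one_le_pow₀ hW1
    have h5 : (1 : ℝ) ≤ ((W : ℝ) + 2) ^ B := one_le_pow₀ hW1
    have h6 : ((W : ℝ) + 2) ^ (G + 1 + B + 1) = ((W : ℝ) + 2) ^ (G + 1) * ((W : ℝ) + 2) ^ B * ((W : ℝ) + 2) := by
      rw [pow_succ, pow_add]
    rw [h6]
    have h7 : (G : ℝ) * W + 1 + (B + 1) ≤ 2 * (((W : ℝ) + 2) ^ (G + 1) * ((W : ℝ) + 2) ^ B) := by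
      nlinarith [mul_nonneg (sub_nonneg.2 h4) (sub_nonneg.2 h5)]
    have h8 : 0 ≤ ((W : ℝ) + 2) ^ (G + 1) * ((W : ℝ) + 2) ^ B := by positivity
    nlinarith
  have hlow : ∀ u ≤ W, (B : ℝ) + 1 ≤ ‖ξ - ((G * u : ℕ) : ℂ)‖ := by
    intro u hu
    have h1 := norm_sub_norm_le ξ ((G * u : ℕ) : ℂ)
    rw [Complex.norm_natCast] at h1
    have h2 : ((G * u : ℕ) : ℝ) ≤ G * W := by
      push_cast
      exact mul_le_mul_of_nonneg_left (by exact_mod_cast hu) (Nat.cast_nonneg G)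
    linarith
  have hnear : ∀ u ≤ W, ‖1 / (ξ - ((G * u : ℕ) : ℂ))‖ < ρ ∧ ξ - ((G * u : ℕ) : ℂ) ≠ 0 := by
    intro u hu
    have h1 := hlow u hu
    have hB0 : (0 : ℝ) ≤ B := Nat.cast_nonneg B
    have h2 : 0 < ‖ξ - ((G * u : ℕ) : ℂ)‖ := by linarith
    refine ⟨?_, norm_pos_iff.1 h2⟩
    rw [norm_div, norm_one, div_lt_comm₀ h2 hρ]
    linarith
  refine ⟨hnear, fun hHt C => ?_⟩
  obtain ⟨S, hS, hmain⟩ := hE W ξ hbig hHt
    (fun i => C (finProdFinEquiv.symm i).1 (finProdFinEquiv.symm i).2)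
  refine ⟨S, ?_, fun u hu hub ℓ hℓ P hPd hP0 g hg t => ?_⟩
  · have h1 : (insert (2 * (Real.pi : ℂ) * Complex.I) (Set.range (Fin.elim0 : Fin 0 → ℂ))) =
        {2 * (Real.pi : ℂ) * Complex.I} := by
      rw [Set.range_eq_empty, insert_empty_eq]
    rw [h1] at hS
    have h2 : (S.card : Cardinal) ≤ ((n * n + 2 : ℕ) : Cardinal) := by
      refine hS.trans ?_
      have h3 := trdeg_one (2 * (Real.pi : ℂ) * Complex.I)
      calc Algebra.trdeg ℚ (IntermediateField.adjoin ℚ {2 * (Real.pi : ℂ) * Complex.I}) +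
            ((n * n : ℕ) : Cardinal) + 1 ≤ 1 + ((n * n : ℕ) : Cardinal) + 1 := by gcongr
        _ = ((n * n + 2 : ℕ) : Cardinal) := by
            push_cast
            ring
    exact_mod_cast h2
  · set α : Fin k → ℂ := fun j => ξ - ((G * u j : ℕ) : ℂ) with hα
    set f : Ix n k → (Fin 0 ⊕ Fin (n * n)) ⊕ Fin k × Option (Fin (n * n)) :=
      Sum.elim (fun a => Sum.inl (Sum.inr (finProdFinEquiv a)))
        (fun b => Sum.inr (b.1, b.2.map finProdFinEquiv)) with hf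
    have hcomp : ∀ (h : Fin k → Matrix (Fin n) (Fin n) ℂ) (t : Fin k → ℂ),
        (Sum.elim (Sum.elim Fin.elim0 fun i : Fin (n * n) =>
          C (finProdFinEquiv.symm i).1 (finProdFinEquiv.symm i).2) (yp h t)) ∘ f = pt C h t := by
      intro h t
      funext i
      rcases i with a | ⟨j, _ | a⟩
      · show C (finProdFinEquiv.symm (finProdFinEquiv a)).1 (finProdFinEquiv.symm (finProdFinEquiv a)).2 = _
        rw [Equiv.symm_apply_apply]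
        rfl
      · rfl
      · show h j (finProdFinEquiv.symm (finProdFinEquiv a)).1 (finProdFinEquiv.symm (finProdFinEquiv a)).2 = _
        rw [Equiv.symm_apply_apply]
        rfl
    have hev : ∀ (h : Fin k → Matrix (Fin n) (Fin n) ℂ) (t : Fin k → ℂ),
        MvPolynomial.aeval (Sum.elim (Sum.elim Fin.elim0 fun i : Fin (n * n) =>
          C (finProdFinEquiv.symm i).1 (finProdFinEquiv.symm i).2) (yp h t))
          (MvPolynomial.rename f (MvPolynomial.map (algebraMap ℚ (⊥ : IntermediateField ℚ ℂ)) P)) =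
          MvPolynomial.aeval (pt C h t) P := by
      intro h t
      rw [MvPolynomial.aeval_rename, hcomp, MvPolynomial.aeval_map_algebraMap]
    have h1 := hmain u hu hub ℓ hℓ (YY 𝒩 fun j => Hz H (1 / α j)) (yy_irr 𝒩 _ δ₁)
      (yp_ptc_mem 𝒩 H α ℓ) (yy_vc hinv fun j => (hnear (u j) (hub j).2.1).1) ⊥ inferInstance
      (by rw [IntermediateField.finrank_bot])
      (MvPolynomial.rename f (MvPolynomial.map (algebraMap ℚ (⊥ : IntermediateField ℚ ℂ)) P))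
      ((MvPolynomial.totalDegree_rename_le _ _).trans
        ((Finset.sup_mono (MvPolynomial.support_map_subset _ _)).trans hPd)) (by
        have h2 := yp_ptc H α ℓ
        rw [h2, hev]
        exact hP0) _ (yp_mem hg t)
    rw [hev] at h1
    exact h1

/-! ### tuples -/

section tuples
variable {k : ℕ} (C : Matrix (Fin n) (Fin n) ℂ)

/-- the space of the monomials in the entries of `C` -/
noncomputable def VC (C : Matrix (Fin n) (Fin n) ℂ) (d : ℕ) : Submodule ℚ ℂ :=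
  Submodule.span ℚ (Set.range fun s : Fin n × Fin n → Fin (d + 1) => ∏ a, C a.1 a.2 ^ (s a : ℕ))

/-- the substitution -/
noncomputable def sbs (C : Matrix (Fin n) (Fin n) ℂ) :
    Ix n k → MvPolynomial (Fin k × Option (Fin (n * n))) ℂ :=
  Sum.elim (fun a => MvPolynomial.C (C a.1 a.2))
    (fun b => MvPolynomial.X (b.1, b.2.map finProdFinEquiv))

theorem sbs_eval (P : MvPolynomial (Ix n k) ℚ) (h : Fin k → Matrix (Fin n) (Fin n) ℂ)
    (t : Fin k → ℂ) : MvPolynomial.aeval (yp h t) (MvPolynomial.aeval (sbs C) P) =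
      MvPolynomial.aeval (pt C h t) P := by
  have h1 : ((MvPolynomial.aeval (yp h t) : MvPolynomial (Fin k × Option (Fin (n * n))) ℂ →ₐ[ℂ]
      ℂ).restrictScalars ℚ).comp (MvPolynomial.aeval (sbs C)) = MvPolynomial.aeval (pt C h t) := by
    refine MvPolynomial.algHom_ext fun i => ?_
    rw [AlgHom.comp_apply, MvPolynomial.aeval_X, MvPolynomial.aeval_X]
    rcases i with a | ⟨j, _ | a⟩
    · show MvPolynomial.aeval (yp h t) (MvPolynomial.C (C a.1 a.2)) = _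
      rw [MvPolynomial.aeval_C]
      rfl
    · show MvPolynomial.aeval (yp h t) (MvPolynomial.X (j, none)) = _
      rw [MvPolynomial.aeval_X]
      rfl
    · show MvPolynomial.aeval (yp h t) (MvPolynomial.X (j, some (finProdFinEquiv a))) = _
      rw [MvPolynomial.aeval_X]
      show h j (finProdFinEquiv.symm (finProdFinEquiv a)).1 (finProdFinEquiv.symm (finProdFinEquiv a)).2 = _
      rw [Equiv.symm_apply_apply]
      rfl
  exact DFunLike.congr_fun h1 P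

theorem sbs_coeff {d : ℕ} {P : MvPolynomial (Ix n k) ℚ} (hP : P.totalDegree ≤ d)
    (s : Fin k × Option (Fin (n * n)) →₀ ℕ) : (MvPolynomial.aeval (sbs C) P).coeff s ∈ VC C d := by
  classical
  rw [P.as_sum, map_sum, MvPolynomial.coeff_sum]
  refine Submodule.sum_mem _ fun m hm => ?_
  rw [MvPolynomial.aeval_monomial]
  have h1 : (m.prod fun i e => sbs C i ^ e) = MvPolynomial.C (∏ a : Fin n × Fin n, C a.1 a.2 ^ m (Sum.inl a)) *
      ∏ b : Fin k × Option (Fin n × Fin n), (MvPolynomial.X (b.1, b.2.map finProdFinEquiv)) ^ m (Sum.inr b) := by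
    rw [Finsupp.prod_fintype _ _ (fun i => pow_zero _), Fintype.prod_sum_type, map_prod]
    congr 1
    exact Finset.prod_congr rfl fun a _ => (map_pow _ _ _).symm
  rw [h1]
  have h2 : (algebraMap ℚ (MvPolynomial (Fin k × Option (Fin (n * n))) ℂ)) (P.coeff m) =
      MvPolynomial.C ((P.coeff m : ℚ) : ℂ) := rfl
  rw [h2, MvPolynomial.coeff_C_mul, MvPolynomial.coeff_C_mul]
  have h3 : ∃ q : ℚ, (∏ b : Fin k × Option (Fin n × Fin n),
      (MvPolynomial.X (b.1, b.2.map finProdFinEquiv) : MvPolynomial (Fin k × Option (Fin (n * n))) ℂ) ^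
        m (Sum.inr b)).coeff s = (q : ℂ) := by
    have h4 : (∏ b : Fin k × Option (Fin n × Fin n),
      (MvPolynomial.X (b.1, b.2.map finProdFinEquiv) : MvPolynomial (Fin k × Option (Fin (n * n))) ℂ) ^
        m (Sum.inr b)) = MvPolynomial.map (algebraMap ℚ ℂ) (∏ b : Fin k × Option (Fin n × Fin n),
      (MvPolynomial.X (b.1, b.2.map finProdFinEquiv) : MvPolynomial (Fin k × Option (Fin (n * n))) ℚ) ^
        m (Sum.inr b)) := by
      rw [map_prod]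
      refine Finset.prod_congr rfl fun b _ => ?_
      rw [map_pow, MvPolynomial.map_X]
    rw [h4, MvPolynomial.coeff_map]
    exact ⟨_, rfl⟩
  obtain ⟨q, hq⟩ := h3
  rw [hq]
  have h5 : ∀ a : Fin n × Fin n, m (Sum.inl a) < d + 1 := by
    intro a
    have h6 : m (Sum.inl a) ≤ m.sum fun _ e => e := by
      by_cases ha : (Sum.inl a : Ix n k) ∈ m.support
      · exact Finset.single_le_sum (f := fun i => m i) (fun _ _ => Nat.zero_le _) ha
      · rw [Finsupp.notMem_support_iff.1 ha]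
        exact Nat.zero_le _
    have h7 := (MvPolynomial.le_totalDegree hm).trans hP
    omega
  have h6 : (∏ a : Fin n × Fin n, C a.1 a.2 ^ m (Sum.inl a)) ∈ VC C d :=
    Submodule.subset_span ⟨fun a => ⟨m (Sum.inl a), h5 a⟩, rfl⟩
  have h7 : ((P.coeff m : ℚ) : ℂ) * ((∏ a : Fin n × Fin n, C a.1 a.2 ^ m (Sum.inl a)) * (q : ℂ)) =
      (P.coeff m * q) • (∏ a : Fin n × Fin n, C a.1 a.2 ^ m (Sum.inl a)) := by
    rw [Rat.smul_def]
    push_cast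
    ring
  rw [h7]
  exact Submodule.smul_mem _ _ h6

theorem sbs_deg (P : MvPolynomial (Ix n k) ℚ) :
    (MvPolynomial.aeval (sbs C) P).totalDegree ≤ P.totalDegree := by
  classical
  conv_lhs => rw [P.as_sum, map_sum]
  refine MvPolynomial.totalDegree_finsetSum_le fun m hm => ?_
  rw [MvPolynomial.aeval_monomial]
  have h2 : (algebraMap ℚ (MvPolynomial (Fin k × Option (Fin (n * n))) ℂ)) (P.coeff m) =
      MvPolynomial.C ((P.coeff m : ℚ) : ℂ) := rfl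
  rw [h2]
  refine (MvPolynomial.totalDegree_mul _ _).trans ?_
  rw [MvPolynomial.totalDegree_C, zero_add]
  refine le_trans ?_ (MvPolynomial.le_totalDegree hm)
  rw [Finsupp.prod, Finsupp.sum]
  refine (MvPolynomial.totalDegree_finset_prod _ _).trans (Finset.sum_le_sum fun i _ => ?_)
  refine (MvPolynomial.totalDegree_pow _ _).trans ?_
  have h3 : (sbs (k := k) C i).totalDegree ≤ 1 := by
    rcases i with a | b
    · show (MvPolynomial.C (C a.1 a.2) : MvPolynomial (Fin k × Option (Fin (n * n))) ℂ).totalDegree ≤ 1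
      rw [MvPolynomial.totalDegree_C]
      omega
    · exact (MvPolynomial.totalDegree_X _).le
  calc m i * (sbs (k := k) C i).totalDegree ≤ m i * 1 := Nat.mul_le_mul_left _ h3
    _ = m i := Nat.mul_one _

end tuples

/-- the points are near the origin and generic -/
def GoodT (H : Matrix (Fin n) (Fin n) ℚ⟦X⟧) (𝒩 : Set (Matrix (Fin n) (Fin n) ℂ)) (ρ : ℝ) {k : ℕ}
    (d : ℕ) (C : Matrix (Fin n) (Fin n) ℂ) (α : Fin k → ℂ) : Prop :=
  (∀ j, ‖1 / α j‖ < ρ ∧ α j ≠ 0) ∧ ∀ ℓ : Fin k → ℂ, (∀ j, Complex.exp (ℓ j) = α j) →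
    Gen 𝒩 d C (fun j => Hz H (1 / α j)) ℓ

/-- **tuples** -/
theorem tup_gen {H : Matrix (Fin n) (Fin n) ℚ⟦X⟧} (hnr : NRh (hh H)) (hsz : SZ (hh H))
    {𝒩 : Set (Matrix (Fin n) (Fin n) ℂ)} {ρ : ℝ} (hρ : 0 < ρ) (hinv : InvR H 𝒩 ρ) (k m d : ℕ)
    (hm : 1 ≤ m) : ∃ c : ℝ, 0 < c ∧ ∃ K : ℝ, 0 ≤ K ∧ ∀ (C : Matrix (Fin n) (Fin n) ℂ) (T : ℕ), 1 ≤ T →
      {α : Fin k → ℂ | (∀ i, Pool.Agent.Y916.Sl.SInt m T (α i)) ∧ ¬ GoodT H 𝒩 ρ d C α}.Finite ∧
      ({α : Fin k → ℂ | (∀ i, Pool.Agent.Y916.Sl.SInt m T (α i)) ∧ ¬ GoodT H 𝒩 ρ d C α}.ncard : ℝ) ≤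
        K * (T : ℝ) ^ (-c) * ({ξ : ℂ | Pool.Agent.Y916.Sl.SInt m T ξ}.ncard : ℝ) ^ k := by
  classical
  obtain ⟨δ₁, c, hc, K₁, hK₁, h1⟩ := Pool.Agent.Y916.Af.tupDs hnr hsz k m d 1 ((d + 1) ^ (n * n))
  obtain ⟨c₁, hc₁, hmany⟩ := Pool.Agent.Y916.Sl.many m hm
  obtain ⟨B, hB⟩ := exists_nat_gt (1 / ρ)
  obtain ⟨K₂, hK₂, h₂⟩ := Pool.Agent.Y916.Af.small_tuples m k (B + 1) (by omega)
  refine ⟨min c 1, lt_min hc one_pos, (K₁ + K₂) / c₁ ^ k, by positivity, fun C T hT => ?_⟩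
  have hT1 : (1 : ℝ) ≤ T := by exact_mod_cast hT
  have hfin : Module.Finite ℚ (VC C d) := Module.Finite.span_of_finite ℚ (Set.finite_range _)
  have hrank : Module.finrank ℚ (VC C d) ≤ (d + 1) ^ (n * n) := by
    refine (finrank_range_le_card _).trans (le_of_eq ?_)
    simp
  obtain ⟨h2, h3⟩ := h1 (VC C d) hfin hrank T hT
  have h4 := h₂ T hT
  set B2 := (Fintype.piFinset fun _ : Fin k => Pool.Agent.Y916.Sl.NF m T).filter fun α =>
    ∃ i, ‖α i‖ ≤ ((B + 1 : ℕ) : ℝ) with hB2'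
  set Z := {α : Fin k → ℂ | (∀ i, Pool.Agent.Y916.Sl.AInt m T (α i)) ∧
    ExcD δ₁ (hh H) d 1 (VC C d) α} with hZ
  have hsub : {α : Fin k → ℂ | (∀ i, Pool.Agent.Y916.Sl.SInt m T (α i)) ∧ ¬ GoodT H 𝒩 ρ d C α} ⊆
      Z ∪ (B2 : Set (Fin k → ℂ)) := by
    rintro α ⟨hα, hbad⟩
    by_cases hs : ∃ i, ‖α i‖ ≤ ((B + 1 : ℕ) : ℝ)
    · right
      rw [hB2', Finset.mem_coe, Finset.mem_filter, Fintype.mem_piFinset]
      exact ⟨fun i => Pool.Agent.Y916.Sl.mem_NF.2 (Pool.Agent.Y916.Sl.SInt.aint (hα i)), hs⟩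
    · left
      push Not at hs
      have hB0 : (0 : ℝ) ≤ B := Nat.cast_nonneg B
      have hnear : ∀ j, ‖1 / α j‖ < ρ ∧ α j ≠ 0 := by
        intro j
        have h5 := hs j
        push_cast at h5
        have h6 : 0 < ‖α j‖ := by linarith
        refine ⟨?_, norm_pos_iff.1 h6⟩
        rw [norm_div, norm_one, div_lt_comm₀ h6 hρ]
        linarith
      refine ⟨fun i => Pool.Agent.Y916.Sl.SInt.aint (hα i), ?_⟩
      unfold GoodT at hbad
      push Not at hbad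
      obtain ⟨ℓ, hℓ, hG⟩ := hbad hnear
      unfold Gen at hG
      push Not at hG
      obtain ⟨P, hPd, hP0, g, hg, t, hne⟩ := hG
      refine ⟨ℓ, hℓ, YY 𝒩 fun j => Hz H (1 / α j), yy_irr 𝒩 _ δ₁, yp_ptc_mem 𝒩 H α ℓ,
        yy_vc hinv fun j => (hnear j).1, ⊥, inferInstance, by rw [IntermediateField.finrank_bot],
        MvPolynomial.aeval (sbs C) P, (sbs_deg C P).trans hPd,
        fun s => Submodule.subset_span (sbs_coeff C hPd s), ?_, _, yp_mem hg t, ?_⟩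
      · rw [yp_ptc, sbs_eval]
        exact hP0
      · rw [sbs_eval]
        exact hne
  have hfin2 : (Z ∪ (B2 : Set (Fin k → ℂ))).Finite := h2.union (Finset.finite_toSet _)
  refine ⟨hfin2.subset hsub, ?_⟩
  have h5 := (Set.ncard_le_ncard hsub hfin2).trans (Set.ncard_union_le _ _)
  rw [Set.ncard_coe_finset] at h5
  have h6 : (T : ℝ) ^ (((k * Pool.Agent.Y916.Sl.Mm m : ℕ) : ℝ) - c) ≤
      (T : ℝ) ^ (((k * Pool.Agent.Y916.Sl.Mm m : ℕ) : ℝ) - min c 1) :=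
    Real.rpow_le_rpow_of_exponent_le hT1 (by linarith [min_le_left c 1])
  have h7 : (T : ℝ) ^ (((k * Pool.Agent.Y916.Sl.Mm m : ℕ) : ℝ) - 1) ≤
      (T : ℝ) ^ (((k * Pool.Agent.Y916.Sl.Mm m : ℕ) : ℝ) - min c 1) :=
    Real.rpow_le_rpow_of_exponent_le hT1 (by linarith [min_le_right c 1])
  have h8 : ({α : Fin k → ℂ | (∀ i, Pool.Agent.Y916.Sl.SInt m T (α i)) ∧
      ¬ GoodT H 𝒩 ρ d C α}.ncard : ℝ) ≤
      (K₁ + K₂) * (T : ℝ) ^ (((k * Pool.Agent.Y916.Sl.Mm m : ℕ) : ℝ) - min c 1) := by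
    calc ({α : Fin k → ℂ | (∀ i, Pool.Agent.Y916.Sl.SInt m T (α i)) ∧
          ¬ GoodT H 𝒩 ρ d C α}.ncard : ℝ) ≤ (Z.ncard : ℝ) + B2.card := by exact_mod_cast h5
      _ ≤ K₁ * (T : ℝ) ^ (((k * Pool.Agent.Y916.Sl.Mm m : ℕ) : ℝ) - min c 1) +
          K₂ * (T : ℝ) ^ (((k * Pool.Agent.Y916.Sl.Mm m : ℕ) : ℝ) - min c 1) :=
          add_le_add (h3.trans (mul_le_mul_of_nonneg_left h6 hK₁))
            (h4.trans (mul_le_mul_of_nonneg_left h7 hK₂))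
      _ = _ := by ring
  exact h8.trans (Pool.Agent.Y916.Sl.prop_bound hc₁ (by positivity) hT (hmany T hT))

end Pool.Agent.T2h17.HW
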