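import Pool.Agent.T2h17.HW.Cls
import Pool.Agent.T2h17.HW.Eng

/-!
From eigenvectors of the Hodge operator to rational Lie algebras.
-/

set_option autoImplicit false
set_option maxHeartbeats 400000

open Matrix

namespace Pool.Agent.T2h17.HW

variable {n k : ℕ}

/-- the block with the index `j` -/
def blk (j : Fin k) {R : Type} [Zero R] (X : Matrix (Fin n) (Fin n) R) :
    Matrix (Fin n × Fin k) (Fin n × Fin k) R := blockDiagonal (Pi.single j X)

theorem blk_apply (j : Fin k) {R : Type} [Zero R] (X : Matrix (Fin n) (Fin n) R)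
    (a b : Fin n × Fin k) : blk j X a b = if a.2 = j ∧ b.2 = j then X a.1 b.1 else 0 := by
  unfold blk
  rw [blockDiagonal_apply]
  by_cases h : a.2 = b.2
  · rw [if_pos h]
    by_cases hj : a.2 = j
    · have hb : b.2 = j := h ▸ hj
      rw [if_pos ⟨hj, hb⟩, hj, Pi.single_eq_same]
    · rw [if_neg (fun h => hj h.1), Pi.single_eq_of_ne hj]
      rfl
  · rw [if_neg h, if_neg]
    rintro ⟨h1, h2⟩
    exact h (h1.trans h2.symm)

theorem blk_mul (j : Fin k) (X Y : Matrix (Fin n) (Fin n) ℚ) : blk j X * blk j Y = blk j (X * Y) := by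
  unfold blk
  rw [← blockDiagonal_mul]
  congr 1
  funext i
  by_cases h : i = j
  · subst h
    rw [Pi.single_eq_same, Pi.single_eq_same, Pi.single_eq_same]
  · rw [Pi.single_eq_of_ne h, Pi.single_eq_of_ne h, Pi.single_eq_of_ne h, Matrix.zero_mul]

/-- the elements whose block is in `𝔪` -/
def sub (j : Fin k) (𝔪 : Submodule ℚ (Matrix (Fin n × Fin k) (Fin n × Fin k) ℚ)) :
    Submodule ℚ (Matrix (Fin n) (Fin n) ℚ) where
  carrier := {X | blk j X ∈ 𝔪}
  add_mem' := fun {X Y} (hX : blk j X ∈ 𝔪) (hY : blk j Y ∈ 𝔪) => by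
    show blk j (X + Y) ∈ 𝔪
    have h1 : blk j (X + Y) = blk j X + blk j Y := by
      ext a b
      rw [Matrix.add_apply, blk_apply, blk_apply, blk_apply]
      split_ifs
      · rfl
      · rw [add_zero]
    rw [h1]
    exact 𝔪.add_mem hX hY
  zero_mem' := by
    show blk j 0 ∈ 𝔪
    have h1 : blk j (0 : Matrix (Fin n) (Fin n) ℚ) = 0 := by
      ext a b
      rw [blk_apply, Matrix.zero_apply]
      split_ifs <;> rfl
    rw [h1]
    exact 𝔪.zero_mem
  smul_mem' := fun c X (hX : blk j X ∈ 𝔪) => by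
    show blk j (c • X) ∈ 𝔪
    have h1 : blk j (c • X) = c • blk j X := by
      ext a b
      rw [Matrix.smul_apply, blk_apply, blk_apply]
      split_ifs
      · rfl
      · rw [smul_zero]
    rw [h1]
    exact 𝔪.smul_mem c hX

theorem mem_sub {j : Fin k} {𝔪 : Submodule ℚ (Matrix (Fin n × Fin k) (Fin n × Fin k) ℚ)}
    {X : Matrix (Fin n) (Fin n) ℚ} : X ∈ sub j 𝔪 ↔ blk j X ∈ 𝔪 := Iff.rfl

/-- the span of a set of matrices after conjugation -/
theorem conj_span {C : Matrix (Fin n) (Fin n) ℂ} {s : Set (Matrix (Fin n) (Fin n) ℂ)}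
    {V : Submodule ℂ (Matrix (Fin n) (Fin n) ℂ)} (h : ∀ X ∈ s, C * X * C⁻¹ ∈ V)
    {Y : Matrix (Fin n) (Fin n) ℂ} (hY : Y ∈ Submodule.span ℂ s) : C * Y * C⁻¹ ∈ V := by
  induction hY using Submodule.span_induction with
  | mem Z hZ => exact h Z hZ
  | zero =>
    rw [Matrix.mul_zero, Matrix.zero_mul]
    exact Submodule.zero_mem _
  | add Z Z' _ _ h1 h2 =>
    rw [Matrix.mul_add, Matrix.add_mul]
    exact Submodule.add_mem _ h1 h2
  | smul c Z _ h1 =>
    rw [Matrix.mul_smul, Matrix.smul_mul]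
    exact Submodule.smul_mem _ _ h1

/-- **from the theorem at generic points to rational Lie algebras** -/
theorem joint_of_concl {N : Matrix (Fin n) (Fin n) ℚ} {𝒩 : Set (Matrix (Fin n) (Fin n) ℂ)}
    {lev : Fin n → ℤ} {C : Matrix (Fin n) (Fin n) ℂ} {h : Fin k → Matrix (Fin n) (Fin n) ℂ}
    {l : Fin k → ℂ} (hC : Concl N 𝒩 lev C h l) {𝔩 : Submodule ℚ (Matrix (Fin n) (Fin n) ℚ)}
    (h𝔩 : ∀ X ∈ 𝔩, C * tc X * C⁻¹ ∈ Submodule.span ℂ (𝒩 ∪ {tc N}))
    {Φ : Fin k → Matrix (Fin n) (Fin n) ℂ}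
    (hΦ : ∀ j p, ∀ v ∈ Fil lev (h j * En (tc N) (-l j) * C) p,
      v ᵥ* Φ j - (p : ℂ) • v ∈ Fil lev (h j * En (tc N) (-l j) * C) (p + 1))
    (hgen : ∀ j, ∀ 𝔞 : Submodule ℚ (Matrix (Fin n) (Fin n) ℚ), (∀ X ∈ 𝔞, ∀ Y ∈ 𝔞, X * Y - Y * X ∈ 𝔞) →
      (∀ i : ℤ, i < 0 → ∀ Y ∈ Submodule.span ℂ (tc '' (𝔩 : Set (Matrix (Fin n) (Fin n) ℚ))),
        Y * Φ j - Φ j * Y = (i : ℂ) • Y →
        Y ∈ Submodule.span ℂ (tc '' (𝔞 : Set (Matrix (Fin n) (Fin n) ℚ)))) → 𝔩 ≤ 𝔞)
    {𝔪 : Submodule ℚ (Matrix (Fin n × Fin k) (Fin n × Fin k) ℚ)}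
    (hbr : ∀ X ∈ 𝔪, ∀ Y ∈ 𝔪, X * Y - Y * X ∈ 𝔪)
    (hmem : blockDiagonal Φ ∈ Submodule.span ℂ (tc '' (𝔪 : Set (Matrix (Fin n × Fin k) (Fin n × Fin k) ℚ))))
    (X : Fin k → Matrix (Fin n) (Fin n) ℚ) (hX : ∀ j, X j ∈ 𝔩) : blockDiagonal X ∈ 𝔪 := by
  have h1 : ∀ j, 𝔩 ≤ sub j 𝔪 := by
    intro j
    refine hgen j (sub j 𝔪) ?_ ?_
    · intro X hX Y hY
      rw [mem_sub] at hX hY ⊢
      have h2 := hbr _ hX _ hY
      rw [blk_mul, blk_mul] at h2
      have h3 : blk j (X * Y) - blk j (Y * X) = blk j (X * Y - Y * X) := by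
        ext a b
        rw [Matrix.sub_apply, blk_apply, blk_apply, blk_apply]
        split_ifs
        · rfl
        · rw [sub_zero]
      rwa [h3] at h2
    · intro i hi Y hY heig
      refine mem_of_maps fun f => ?_
      rw [mem_sub]
      have h2 := hC Φ hΦ 𝔪 hbr hmem (Pi.single j Y) ?_ (i : ℂ) ?_ ?_
      · have h3 := mem_of_map h2 f
        have h4 : (blockDiagonal (Pi.single j Y) : Matrix (Fin n × Fin k) (Fin n × Fin k) ℂ).map f =
            blk j (Y.map f) := by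
          ext a b
          have h5 := blk_apply j Y a b
          unfold blk at h5
          rw [Matrix.map_apply, h5, blk_apply]
          split_ifs
          · rfl
          · exact map_zero f
        rwa [h4] at h3
      · intro a
        by_cases ha : a = j
        · subst ha
          rw [Pi.single_eq_same]
          refine conj_span (fun Z hZ => ?_) hY
          obtain ⟨W, hW, rfl⟩ := hZ
          exact h𝔩 W hW
        · rw [Pi.single_eq_of_ne ha, Matrix.mul_zero, Matrix.zero_mul]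
          exact Submodule.zero_mem _
      · intro m hm
        have h3 : (i : ℂ) = ((m : ℤ) : ℂ) := by
          rw [hm]
          push_cast
          rfl
        have h4 : i = (m : ℤ) := by exact_mod_cast h3
        omega
      · intro a
        by_cases ha : a = j
        · subst ha
          rw [Pi.single_eq_same]
          exact heig
        · rw [Pi.single_eq_of_ne ha, Matrix.zero_mul, Matrix.mul_zero, smul_zero, sub_zero]
  have h2 : blockDiagonal X = ∑ j, blk j (X j) := by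
    ext a b
    rw [Matrix.sum_apply, blockDiagonal_apply]
    simp only [blk_apply]
    by_cases hab : a.2 = b.2
    · rw [if_pos hab, Finset.sum_eq_single a.2]
      · rw [if_pos ⟨rfl, hab.symm⟩]
      · intro j _ hj
        rw [if_neg (fun h => hj h.1.symm)]
      · intro h
        exact absurd (Finset.mem_univ _) h
    · rw [if_neg hab, Finset.sum_eq_zero]
      intro j _
      rw [if_neg]
      rintro ⟨h1, h2⟩
      exact hab (h1.trans h2.symm)
  rw [h2]
  exact 𝔪.sum_mem fun j _ => h1 j (hX j)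

end Pool.Agent.T2h17.HW
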