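import Mathlib

/-!
Tangent directions of the orbits of a group which is generated by unipotent one-parameter groups.
-/

set_option autoImplicit false
set_option maxHeartbeats 400000

open Matrix

namespace Pool.Agent.T2h17.HW

variable {n k : ℕ}

/-- the exponential of `l N` for a nilpotent matrix `N` -/
noncomputable def En {L : Type} [Field L] (N : Matrix (Fin n) (Fin n) L) (l : L) :
    Matrix (Fin n) (Fin n) L :=
  ∑ a ∈ Finset.range n, (l ^ a / (a.factorial : L)) • N ^ a

/-- the group generated by the one-parameter groups with the directions `𝒩` -/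
def Grp (𝒩 : Set (Matrix (Fin n) (Fin n) ℂ)) : Submonoid (Matrix (Fin n) (Fin n) ℂ) :=
  Submonoid.closure {g | ∃ X ∈ 𝒩, ∃ s : ℂ, g = En X s}

/-- the index set of the coordinates -/
abbrev Ix (n k : ℕ) : Type := (Fin n × Fin n) ⊕ (Fin k × Option (Fin n × Fin n))

/-- the point with the coordinates `C`, `h`, `l` -/
def pt (C : Matrix (Fin n) (Fin n) ℂ) (h : Fin k → Matrix (Fin n) (Fin n) ℂ) (l : Fin k → ℂ) :
    Ix n k → ℂ :=
  Sum.elim (fun a => C a.1 a.2) fun b => b.2.elim (l b.1) fun a => h b.1 a.1 a.2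

/-- all relations of degree at most `d` hold on the orbit -/
def Gen (𝒩 : Set (Matrix (Fin n) (Fin n) ℂ)) (d : ℕ) (C : Matrix (Fin n) (Fin n) ℂ)
    (h : Fin k → Matrix (Fin n) (Fin n) ℂ) (l : Fin k → ℂ) : Prop :=
  ∀ P : MvPolynomial (Ix n k) ℚ, P.totalDegree ≤ d → MvPolynomial.aeval (pt C h l) P = 0 →
    ∀ g : Fin k → Matrix (Fin n) (Fin n) ℂ, (∀ j, g j ∈ Grp 𝒩) → ∀ t : Fin k → ℂ,
    MvPolynomial.aeval (pt C (fun j => h j * g j) t) P = 0

/-- the tangent vectors -/
def vt (h Z : Fin k → Matrix (Fin n) (Fin n) ℂ) (μ : Fin k → ℂ) : Ix n k → ℂ :=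
  Sum.elim (fun _ => 0) fun b => b.2.elim (μ b.1) fun a => (h b.1 * Z b.1) a.1 a.2

theorem Gen.mono {𝒩 : Set (Matrix (Fin n) (Fin n) ℂ)} {d d' : ℕ} (hd : d ≤ d')
    {C : Matrix (Fin n) (Fin n) ℂ} {h : Fin k → Matrix (Fin n) (Fin n) ℂ} {l : Fin k → ℂ}
    (hG : Gen 𝒩 d' C h l) : Gen 𝒩 d C h l := fun P hP => hG P (hP.trans hd)

/-- the chain rule -/
theorem chain {τ : Type} [Fintype τ] (P : MvPolynomial τ ℚ) {x : ℂ → τ → ℂ} {x' : τ → ℂ} {s : ℂ}
    (hx : ∀ i, HasDerivAt (fun s => x s i) (x' i) s) :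
    HasDerivAt (fun s => MvPolynomial.aeval (x s) P)
      (∑ i, MvPolynomial.aeval (x s) (MvPolynomial.pderiv i P) * x' i) s := by
  classical
  induction P using MvPolynomial.induction_on with
  | C a =>
    simp only [MvPolynomial.aeval_C, MvPolynomial.pderiv_C, map_zero, zero_mul,
      Finset.sum_const_zero]
    exact hasDerivAt_const _ _
  | add p q hp hq =>
    simp only [map_add, add_mul, Finset.sum_add_distrib]
    exact hp.add hq
  | mul_X p i hp =>
    simp only [map_mul, MvPolynomial.aeval_X]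
    have h1 := hp.mul (hx i)
    refine h1.congr_deriv ?_
    simp only [MvPolynomial.pderiv_mul, map_add, map_mul, MvPolynomial.aeval_X, add_mul,
      Finset.sum_add_distrib, MvPolynomial.pderiv_X]
    congr 1
    · rw [Finset.sum_mul]
      exact Finset.sum_congr rfl fun j _ => by ring
    · rw [Finset.sum_eq_single i]
      · simp
      · intro j _ hj
        rw [Pi.single_eq_of_ne (Ne.symm hj)]
        simp
      · intro h
        exact absurd (Finset.mem_univ _) h

theorem En_zero {L : Type} [Field L] (N : Matrix (Fin n) (Fin n) L) : En N 0 = 1 := by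
  unfold En
  rcases Nat.eq_zero_or_pos n with rfl | hn
  · ext i
    exact i.elim0
  · rw [Finset.sum_eq_single 0]
    · simp
    · intro b _ hb
      rw [zero_pow hb, zero_div, zero_smul]
    · intro h
      exact absurd (Finset.mem_range.2 hn) h

/-- the derivative of the one-parameter group -/
theorem En_deriv {X : Matrix (Fin n) (Fin n) ℂ} (hX : X ^ n = 0) (h : Matrix (Fin n) (Fin n) ℂ)
    (a b : Fin n) : HasDerivAt (fun s : ℂ => (h * En X s) a b) ((h * X) a b) 0 := by
  have h1 : ∀ s : ℂ, (h * En X s) a b =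
      ∑ c ∈ Finset.range n, s ^ c * ((h * X ^ c) a b / (c.factorial : ℂ)) := by
    intro s
    unfold En
    rw [Matrix.mul_sum, Matrix.sum_apply]
    refine Finset.sum_congr rfl fun c _ => ?_
    rw [Matrix.mul_smul, Matrix.smul_apply, smul_eq_mul]
    ring
  simp only [h1]
  have h2 : HasDerivAt (fun s : ℂ => ∑ c ∈ Finset.range n, s ^ c * ((h * X ^ c) a b / (c.factorial : ℂ)))
      (∑ c ∈ Finset.range n, ((c : ℂ) * 0 ^ (c - 1)) * ((h * X ^ c) a b / (c.factorial : ℂ))) 0 := by
    refine HasDerivAt.fun_sum fun c _ => ?_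
    exact (hasDerivAt_pow c (0 : ℂ)).mul_const _
  refine h2.congr_deriv ?_
  rcases Nat.lt_or_ge 1 n with hn | hn
  · rw [Finset.sum_eq_single 1]
    · simp
    · intro c _ hc
      rcases Nat.eq_zero_or_pos c with rfl | hc0
      · simp
      · rw [zero_pow (by omega), mul_zero, zero_mul]
    · intro h
      exact absurd (Finset.mem_range.2 hn) h
  · have hX0 : X = 0 := by
      rcases Nat.eq_zero_or_pos n with rfl | hn0
      · exact a.elim0
      · have : n = 1 := by omega
        subst this
        simpa using hX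
    rw [hX0, Matrix.mul_zero, Matrix.zero_apply]
    refine Finset.sum_eq_zero fun c hc => ?_
    have : c = 0 := by
      have := Finset.mem_range.1 hc
      omega
    subst this
    simp

section
variable {𝒩 : Set (Matrix (Fin n) (Fin n) ℂ)} {d : ℕ} {C : Matrix (Fin n) (Fin n) ℂ}
  {h : Fin k → Matrix (Fin n) (Fin n) ℂ} {l : Fin k → ℂ}

theorem tan_log (hG : Gen 𝒩 d C h l) {P : MvPolynomial (Ix n k) ℚ} (hP : P.totalDegree ≤ d)
    (h0 : MvPolynomial.aeval (pt C h l) P = 0) (μ : Fin k → ℂ) :
    ∑ i, MvPolynomial.aeval (pt C h l) (MvPolynomial.pderiv i P) * vt h 0 μ i = 0 := by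
  have hx : ∀ i, HasDerivAt (fun s : ℂ => pt C h (fun j => l j + s * μ j) i) (vt h 0 μ i) 0 := by
    rintro (a | ⟨j, _ | a⟩)
    · exact hasDerivAt_const _ _
    · have h1 : HasDerivAt (fun s : ℂ => l j + s * μ j) (1 * μ j) 0 :=
        ((hasDerivAt_id (0 : ℂ)).mul_const (μ j)).const_add (l j)
      rw [one_mul] at h1
      exact h1
    · have h1 : vt h 0 μ (Sum.inr (j, some a)) = 0 := by
        show (h j * (0 : Fin k → Matrix (Fin n) (Fin n) ℂ) j) a.1 a.2 = 0
        rw [Pi.zero_apply, Matrix.mul_zero, Matrix.zero_apply]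
      rw [h1]
      exact hasDerivAt_const _ _
  have h1 := chain P hx
  have h2 : (fun s : ℂ => MvPolynomial.aeval (pt C h (fun j => l j + s * μ j)) P) = fun _ => 0 := by
    funext s
    have h3 := hG P hP h0 (fun _ => 1) (fun _ => (Grp 𝒩).one_mem) (fun j => l j + s * μ j)
    simpa using h3
  rw [h2] at h1
  have h3 := h1.unique (hasDerivAt_const _ _)
  simpa using h3

theorem tan_nil (hn : ∀ X ∈ 𝒩, X ^ n = 0) (hG : Gen 𝒩 d C h l) {P : MvPolynomial (Ix n k) ℚ}
    (hP : P.totalDegree ≤ d) (h0 : MvPolynomial.aeval (pt C h l) P = 0) (j : Fin k)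
    {X : Matrix (Fin n) (Fin n) ℂ} (hX : X ∈ 𝒩) :
    ∑ i, MvPolynomial.aeval (pt C h l) (MvPolynomial.pderiv i P) * vt h (Pi.single j X) 0 i = 0 := by
  classical
  have hx : ∀ i, HasDerivAt (fun s : ℂ => pt C (fun j' => h j' * (if j' = j then En X s else 1)) l i)
      (vt h (Pi.single j X) 0 i) 0 := by
    rintro (a | ⟨j', _ | a⟩)
    · exact hasDerivAt_const _ _
    · exact hasDerivAt_const _ _
    · by_cases hj : j' = j
      · subst hj
        have h1 : vt h (Pi.single j' X) 0 (Sum.inr (j', some a)) = (h j' * X) a.1 a.2 := by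
          show (h j' * (Pi.single j' X : Fin k → Matrix (Fin n) (Fin n) ℂ) j') a.1 a.2 = _
          rw [Pi.single_eq_same]
        rw [h1]
        have h2 : (fun s : ℂ => pt C (fun j'' => h j'' * (if j'' = j' then En X s else 1)) l
            (Sum.inr (j', some a))) = fun s => (h j' * En X s) a.1 a.2 := by
          funext s
          show (h j' * (if j' = j' then En X s else 1)) a.1 a.2 = _
          rw [if_pos rfl]
        rw [h2]
        exact En_deriv (hn X hX) (h j') a.1 a.2
      · have h1 : vt h (Pi.single j X) 0 (Sum.inr (j', some a)) = 0 := by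
          show (h j' * (Pi.single j X : Fin k → Matrix (Fin n) (Fin n) ℂ) j') a.1 a.2 = _
          rw [Pi.single_eq_of_ne hj, Matrix.mul_zero, Matrix.zero_apply]
        rw [h1]
        have h2 : (fun s : ℂ => pt C (fun j'' => h j'' * (if j'' = j then En X s else 1)) l
            (Sum.inr (j', some a))) = fun _ => h j' a.1 a.2 := by
          funext s
          show (h j' * (if j' = j then En X s else 1)) a.1 a.2 = _
          rw [if_neg hj, Matrix.mul_one]
        rw [h2]
        exact hasDerivAt_const _ _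
  have h1 := chain P hx
  have hz : (fun j' => h j' * (if j' = j then En X (0 : ℂ) else 1)) = h := by
    funext j'
    split_ifs
    · rw [En_zero, Matrix.mul_one]
    · rw [Matrix.mul_one]
  have h2 : (fun s : ℂ => MvPolynomial.aeval
      (pt C (fun j' => h j' * (if j' = j then En X s else 1)) l) P) = fun _ => 0 := by
    funext s
    refine hG P hP h0 (fun j' => if j' = j then En X s else 1) (fun j' => ?_) l
    split_ifs
    · exact Submonoid.subset_closure ⟨X, hX, s, rfl⟩
    · exact (Grp 𝒩).one_mem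
  rw [h2, hz] at h1
  have h3 := h1.unique (hasDerivAt_const _ _)
  simpa using h3

/-- **the tangent directions** -/
theorem tangent (hn : ∀ X ∈ 𝒩, X ^ n = 0) (hG : Gen 𝒩 d C h l) {P : MvPolynomial (Ix n k) ℚ}
    (hP : P.totalDegree ≤ d) (h0 : MvPolynomial.aeval (pt C h l) P = 0)
    {Z : Fin k → Matrix (Fin n) (Fin n) ℂ} (hZ : ∀ j, Z j ∈ Submodule.span ℂ 𝒩) (μ : Fin k → ℂ) :
    ∑ i, MvPolynomial.aeval (pt C h l) (MvPolynomial.pderiv i P) * vt h Z μ i = 0 := by
  classical
  set φ : (Ix n k → ℂ) → ℂ := fun v =>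
    ∑ i, MvPolynomial.aeval (pt C h l) (MvPolynomial.pderiv i P) * v i with hφ
  have hφa : ∀ v w, φ (v + w) = φ v + φ w := by
    intro v w
    simp only [hφ, Pi.add_apply, mul_add, Finset.sum_add_distrib]
  have hφs : ∀ (c : ℂ) v, φ (c • v) = c * φ v := by
    intro c v
    simp only [hφ, Pi.smul_apply, smul_eq_mul, Finset.mul_sum]
    exact Finset.sum_congr rfl fun i _ => by ring
  have h1 : ∀ j, ∀ W ∈ Submodule.span ℂ 𝒩, φ (vt h (Pi.single j W) 0) = 0 := by
    intro j W hW
    induction hW using Submodule.span_induction with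
    | mem X hX => exact tan_nil hn hG hP h0 j hX
    | zero =>
      have h2 : vt h (Pi.single j (0 : Matrix (Fin n) (Fin n) ℂ)) 0 = 0 • vt h 0 0 := by
        rw [zero_smul]
        funext i
        rcases i with a | ⟨j', _ | a⟩
        · rfl
        · rfl
        · show (h j' * (Pi.single j 0 : Fin k → Matrix (Fin n) (Fin n) ℂ) j') a.1 a.2 = 0
          rw [Pi.single_zero, Pi.zero_apply, Matrix.mul_zero, Matrix.zero_apply]
      rw [h2, zero_smul]
      simp [hφ]
    | add W W' _ _ h2 h3 =>
      have h4 : vt h (Pi.single j (W + W')) 0 = vt h (Pi.single j W) 0 + vt h (Pi.single j W') 0 := by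
        funext i
        rcases i with a | ⟨j', _ | a⟩
        · exact (add_zero _).symm
        · exact (add_zero _).symm
        · show (h j' * (Pi.single j (W + W') : Fin k → Matrix (Fin n) (Fin n) ℂ) j') a.1 a.2 =
            (h j' * (Pi.single j W : Fin k → Matrix (Fin n) (Fin n) ℂ) j') a.1 a.2 +
            (h j' * (Pi.single j W' : Fin k → Matrix (Fin n) (Fin n) ℂ) j') a.1 a.2
          rw [Pi.single_add, Pi.add_apply, Matrix.mul_add, Matrix.add_apply]
      rw [h4, hφa, h2, h3, add_zero]
    | smul c W _ h2 =>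
      have h4 : vt h (Pi.single j (c • W)) 0 = c • vt h (Pi.single j W) 0 := by
        funext i
        rcases i with a | ⟨j', _ | a⟩
        · exact (mul_zero _).symm
        · exact (mul_zero _).symm
        · show (h j' * (Pi.single j (c • W) : Fin k → Matrix (Fin n) (Fin n) ℂ) j') a.1 a.2 =
            c * (h j' * (Pi.single j W : Fin k → Matrix (Fin n) (Fin n) ℂ) j') a.1 a.2
          rw [Pi.single_smul, Pi.smul_apply, Matrix.mul_smul, Matrix.smul_apply, smul_eq_mul]
      rw [h4, hφs, h2, mul_zero]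
  have h2 : vt h Z μ = vt h 0 μ + ∑ j, vt h (Pi.single j (Z j)) 0 := by
    funext i
    rw [Pi.add_apply, Finset.sum_apply]
    rcases i with a | ⟨j', _ | a⟩
    · show (0 : ℂ) = 0 + ∑ _j, 0
      simp
    · show μ j' = μ j' + ∑ _j, 0
      simp
    · show (h j' * Z j') a.1 a.2 = (h j' * (0 : Fin k → Matrix (Fin n) (Fin n) ℂ) j') a.1 a.2 +
        ∑ j, (h j' * (Pi.single j (Z j) : Fin k → Matrix (Fin n) (Fin n) ℂ) j') a.1 a.2
      rw [Pi.zero_apply, Matrix.mul_zero, Matrix.zero_apply, zero_add, Finset.sum_eq_single j']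
      · rw [Pi.single_eq_same]
      · intro j _ hj
        rw [Pi.single_eq_of_ne (Ne.symm hj), Matrix.mul_zero, Matrix.zero_apply]
      · intro hj
        exact absurd (Finset.mem_univ _) hj
  have h3 : ∀ (s : Finset (Fin k)), φ (∑ j ∈ s, vt h (Pi.single j (Z j)) 0) = 0 := by
    intro s
    induction s using Finset.induction_on with
    | empty =>
      rw [Finset.sum_empty]
      simp [hφ]
    | insert j s hj ih => rw [Finset.sum_insert hj, hφa, ih, h1 j _ (hZ j), add_zero]
  have h4 : φ (vt h Z μ) = 0 := by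
    rw [h2, hφa, h3, add_zero]
    exact tan_log hG hP h0 μ
  exact h4

end

end Pool.Agent.T2h17.HW
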