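import Pool.Agent.Y421.HG.Der
import Pool.Agent.Y118.UL.Cor

/-!
Germs of matrices and derivations of the ultrapower of the complex numbers.
-/

set_option autoImplicit false
set_option maxHeartbeats 400000

open Matrix Filter

namespace Pool.Agent.T2h17.HW

open Pool.Agent.Y118.UL (U mk mk_eq mk_eq_zero ev_ge qc_mk algebraMap_eq aeval_mk rep tdm)

/-- the germ of a sequence of matrices -/
noncomputable def gm {α β : Type} (A : ℕ → Matrix α β ℂ) : Matrix α β (U ℂ) :=
  Matrix.of fun i j => mk ℂ fun d => A d i j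

theorem gm_apply {α β : Type} (A : ℕ → Matrix α β ℂ) (i : α) (j : β) :
    gm A i j = mk ℂ fun d => A d i j := rfl

theorem gm_mul {α β γ : Type} [Fintype β] (A : ℕ → Matrix α β ℂ) (B : ℕ → Matrix β γ ℂ) :
    gm (fun d => A d * B d) = gm A * gm B := by
  ext i j
  rw [gm_apply, Matrix.mul_apply]
  simp only [gm_apply, ← map_mul]
  rw [← map_sum]
  congr 1
  funext d
  rw [Matrix.mul_apply, Finset.sum_apply]
  rfl

theorem gm_sub {α β : Type} (A B : ℕ → Matrix α β ℂ) : gm (fun d => A d - B d) = gm A - gm B := by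
  ext i j
  rw [gm_apply, Matrix.sub_apply, gm_apply, gm_apply, ← map_sub]
  rfl

theorem gm_add {α β : Type} (A B : ℕ → Matrix α β ℂ) : gm (fun d => A d + B d) = gm A + gm B := by
  ext i j
  rw [gm_apply, Matrix.add_apply, gm_apply, gm_apply, ← map_add]
  rfl

theorem gm_smul {α β : Type} (c : ℕ → ℂ) (A : ℕ → Matrix α β ℂ) :
    gm (fun d => c d • A d) = mk ℂ c • gm A := by
  ext i j
  rw [gm_apply, Matrix.smul_apply, gm_apply, smul_eq_mul, ← map_mul]
  rfl

theorem gm_one {α : Type} [DecidableEq α] : gm (fun _ => (1 : Matrix α α ℂ)) = 1 := by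
  ext i j
  rw [gm_apply, Matrix.one_apply]
  simp only [Matrix.one_apply]
  split_ifs
  · exact map_one (mk ℂ)
  · exact map_zero (mk ℂ)

theorem gm_sum {α β τ : Type} (s : Finset τ) (A : τ → ℕ → Matrix α β ℂ) :
    gm (fun d => ∑ t ∈ s, A t d) = ∑ t ∈ s, gm (A t) := by
  ext i j
  rw [gm_apply, Matrix.sum_apply]
  simp only [gm_apply]
  rw [← map_sum]
  congr 1
  funext d
  rw [Matrix.sum_apply, Finset.sum_apply]

theorem gm_ext {α β : Type} [Finite α] [Finite β] {A B : ℕ → Matrix α β ℂ} :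
    gm A = gm B ↔ ∀ᶠ d in (hyperfilter ℕ : Filter ℕ), A d = B d := by
  constructor
  · intro h
    have h1 : ∀ i j, ∀ᶠ d in (hyperfilter ℕ : Filter ℕ), A d i j = B d i j := fun i j => by
      have h2 := congrFun (congrFun h i) j
      rw [gm_apply, gm_apply] at h2
      exact mk_eq.1 h2
    have h2 := eventually_all.2 fun i => eventually_all.2 fun j => h1 i j
    exact h2.mono fun d hd => by
      ext i j
      exact hd i j
  · intro h
    ext i j
    rw [gm_apply, gm_apply, mk_eq]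
    exact h.mono fun d hd => by rw [hd]

/-- the derivative of the germ of a sequence of rational numbers -/
theorem der_rat (D : Derivation (U ℚ) (U ℂ) (U ℂ)) (q : ℕ → ℚ) : D (mk ℂ fun d => ((q d : ℚ) : ℂ)) = 0 := by
  rw [← qc_mk, ← algebraMap_eq, Derivation.map_algebraMap]

/-- **derivations in tangent directions** -/
theorem exists_der {τ : Type} [Fintype τ] (x v : ℕ → τ → ℂ)
    (h : ∀ d, ∀ P : MvPolynomial τ ℚ, P.totalDegree ≤ d → MvPolynomial.aeval (x d) P = 0 →
      ∑ i, MvPolynomial.aeval (x d) (MvPolynomial.pderiv i P) * v d i = 0) :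
    ∃ D : Derivation (U ℚ) (U ℂ) (U ℂ), ∀ i, D (mk ℂ fun d => x d i) = mk ℂ fun d => v d i := by
  refine Pool.Agent.Y421.HG.t_DER (U ℚ) (U ℂ) τ (fun i => mk ℂ fun d => x d i)
    (fun i => mk ℂ fun d => v d i) fun P hP => ?_
  obtain ⟨Q, rfl⟩ := rep P
  rw [aeval_mk, mk_eq_zero] at hP
  have h1 : ∀ i, MvPolynomial.aeval (fun i => mk ℂ fun d => x d i)
      (MvPolynomial.pderiv i (MvPolynomial.map (mk ℚ) Q)) * mk ℂ (fun d => v d i) =
      mk ℂ (fun d => MvPolynomial.aeval (x d) (MvPolynomial.pderiv i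
        (MvPolynomial.map (Pi.evalRingHom (fun _ => ℚ) d) Q)) * v d i) := by
    intro i
    rw [MvPolynomial.pderiv_map, aeval_mk, ← map_mul]
    congr 1
    funext d
    rw [Pi.mul_apply, MvPolynomial.pderiv_map]
  simp only [h1]
  rw [← map_sum, mk_eq_zero]
  filter_upwards [hP, ev_ge Q.totalDegree] with d hd1 hd2
  rw [Finset.sum_apply]
  exact h d _ ((tdm _ _).trans hd2) hd1

end Pool.Agent.T2h17.HW
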