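import Pool.Agent.T2h17.HW.Lin
import Pool.Agent.T2h17.HW.Ult
import Pool.Agent.T2h17.HW.Tan

/-!
The elements of negative degree of the Lie algebra of the monodromy group are in every rational Lie
algebra which contains the Hodge operator, at points which are generic in bounded degree.
-/

set_option autoImplicit false
set_option maxHeartbeats 400000

open Matrix Filter

namespace Pool.Agent.T2h17.HW

open Pool.Agent.Y118.UL (U mk mk_eq mk_eq_zero mk_surj ev_ge qc_mk algebraMap_eq)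

/-- rational matrices as complex matrices -/
def tc {α β : Type} (M : Matrix α β ℚ) : Matrix α β ℂ := M.map fun x : ℚ => (x : ℂ)

theorem tc_mul {α β γ : Type} [Fintype β] (A : Matrix α β ℚ) (B : Matrix β γ ℚ) :
    tc (A * B) = tc A * tc B := by
  ext i j
  simp [tc, Matrix.mul_apply]

theorem tc_sub {α β : Type} (A B : Matrix α β ℚ) : tc (A - B) = tc A - tc B := by
  ext i j
  simp [tc]

theorem tc_pow {n : ℕ} (A : Matrix (Fin n) (Fin n) ℚ) (a : ℕ) : tc (A ^ a) = tc A ^ a := by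
  induction a with
  | zero =>
    rw [pow_zero, pow_zero]
    ext i j
    rw [tc, Matrix.map_apply, Matrix.one_apply, Matrix.one_apply]
    split_ifs <;> simp
  | succ a ih => rw [pow_succ, pow_succ, tc_mul, ih]

/-! ### exponentials -/

theorem En_step {L : Type} [Field L] [CharZero L] {n : ℕ} {N : Matrix (Fin n) (Fin n) L}
    (hN : N ^ n = 0) (s : L) :
    ∑ a ∈ Finset.range n, ((a : L) * s ^ (a - 1) / (a.factorial : L)) • N ^ a = N * En N s := by
  rcases n with _ | m
  · ext i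
    exact i.elim0
  · rw [Finset.sum_range_succ', En, Finset.sum_range_succ, Matrix.mul_add, Matrix.mul_smul,
      ← pow_succ', hN, smul_zero, add_zero, Nat.cast_zero, zero_mul, zero_div, zero_smul, add_zero,
      Matrix.mul_sum]
    refine Finset.sum_congr rfl fun a _ => ?_
    rw [Matrix.mul_smul, ← pow_succ', Nat.add_sub_cancel, Nat.factorial_succ]
    congr 1
    have h1 : ((a + 1 : ℕ) : L) ≠ 0 := by exact_mod_cast Nat.succ_ne_zero a
    push_cast at h1 ⊢
    rw [mul_div_mul_left _ _ h1]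

theorem gm_const_pow {n : ℕ} (A : Matrix (Fin n) (Fin n) ℂ) (a : ℕ) :
    gm (fun _ => A ^ a) = gm (fun _ => A) ^ a := by
  induction a with
  | zero =>
    simp only [pow_zero]
    exact gm_one
  | succ a ih =>
    simp only [pow_succ]
    rw [gm_mul, ih]

theorem mk_fact (s : ℕ → ℂ) (a : ℕ) :
    mk ℂ (fun d => s d ^ a / (a.factorial : ℂ)) = mk ℂ s ^ a / (a.factorial : U ℂ) := by
  have h1 : (a.factorial : U ℂ) ≠ 0 := by exact_mod_cast Nat.factorial_ne_zero a
  rw [eq_div_iff h1]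
  have h2 : (a.factorial : U ℂ) = mk ℂ (a.factorial : ℕ → ℂ) := (map_natCast (mk ℂ) _).symm
  rw [h2, ← map_mul, ← map_pow]
  congr 1
  funext d
  have h3 : (a.factorial : ℂ) ≠ 0 := by exact_mod_cast Nat.factorial_ne_zero a
  show s d ^ a / (a.factorial : ℂ) * (a.factorial : ℂ) = s d ^ a
  rw [div_mul_cancel₀ _ h3]

theorem gm_En {n : ℕ} (A : Matrix (Fin n) (Fin n) ℂ) (s : ℕ → ℂ) :
    gm (fun d => En A (s d)) = En (gm fun _ => A) (mk ℂ s) := by
  unfold En
  rw [gm_sum]
  refine Finset.sum_congr rfl fun a _ => ?_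
  rw [gm_smul (fun d => s d ^ a / (a.factorial : ℂ)) fun _ => A ^ a, gm_const_pow, mk_fact]

theorem der_nat (D : Derivation (U ℚ) (U ℂ) (U ℂ)) (a : ℕ) : D ((a : ℕ) : U ℂ) = 0 := by
  have : ((a : ℕ) : U ℂ) = algebraMap (U ℚ) (U ℂ) (a : U ℚ) := by simp
  rw [this, Derivation.map_algebraMap]

theorem der_En {n : ℕ} {N : Matrix (Fin n) (Fin n) ℚ} (hN : N ^ n = 0)
    (D : Derivation (U ℚ) (U ℂ) (U ℂ)) (y : U ℂ) :
    (En (gm fun _ => tc N) y).map D = D y • (gm (fun _ => tc N) * En (gm fun _ => tc N) y) := by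
  have hN' : (gm fun _ => tc N) ^ n = 0 := by
    rw [← gm_const_pow, ← tc_pow, hN]
    ext i j
    rw [gm_apply]
    simp only [tc, Matrix.map_apply, Matrix.zero_apply, Rat.cast_zero]
    exact map_zero (mk ℂ)
  rw [← En_step hN']
  ext i j
  rw [Matrix.map_apply, En, Matrix.sum_apply, map_sum, Matrix.smul_apply, Matrix.sum_apply,
    smul_eq_mul, Finset.mul_sum]
  refine Finset.sum_congr rfl fun a _ => ?_
  rw [Matrix.smul_apply, Matrix.smul_apply, smul_eq_mul, smul_eq_mul, Derivation.leibniz]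
  have h1 : D (((gm fun _ => tc N) ^ a) i j) = 0 := by
    rw [← gm_const_pow, ← tc_pow, gm_apply]
    exact der_rat D fun _ => (N ^ a) i j
  have h2 : D (y ^ a / (a.factorial : U ℂ)) = (a : U ℂ) * y ^ (a - 1) / (a.factorial : U ℂ) * D y := by
    have h3 : D ((a.factorial : U ℂ)⁻¹) = 0 := by
      have h4 : ((a.factorial : ℕ) : U ℂ)⁻¹ = algebraMap (U ℚ) (U ℂ) ((a.factorial : U ℚ)⁻¹) := by
        simp
      rw [h4, Derivation.map_algebraMap]
    rw [div_eq_mul_inv, Derivation.leibniz, h3, smul_zero, zero_add, Derivation.leibniz_pow,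
      smul_eq_mul, smul_eq_mul, nsmul_eq_mul]
    ring
  rw [h1, h2, smul_zero, zero_add, smul_eq_mul]
  ring

theorem En_comm {n : ℕ} (N : Matrix (Fin n) (Fin n) ℂ) (l : ℂ) : N * En N l = En N l * N := by
  unfold En
  rw [Matrix.mul_sum, Matrix.sum_mul]
  refine Finset.sum_congr rfl fun i _ => ?_
  rw [Matrix.mul_smul, Matrix.smul_mul, (Commute.pow_right (Commute.refl N) i).eq]

/-! ### the core -/

/-- a bad example in degree `d` -/
structure Bad {n k : ℕ} (N : Matrix (Fin n) (Fin n) ℚ) (𝒩 : Set (Matrix (Fin n) (Fin n) ℂ))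
    (lev : Fin n → ℤ) (d : ℕ) : Type where
  C : Matrix (Fin n) (Fin n) ℂ
  h : Fin k → Matrix (Fin n) (Fin n) ℂ
  l : Fin k → ℂ
  Φ : Fin k → Matrix (Fin n) (Fin n) ℂ
  Φ0 : Fin k → Matrix (Fin n) (Fin n) ℂ
  Y : Fin k → Matrix (Fin n) (Fin n) ℂ
  Z : Fin k → Matrix (Fin n) (Fin n) ℂ
  μ : Fin k → ℂ
  x : (Fin n × Fin k) × (Fin n × Fin k) → Matrix (Fin n × Fin k) (Fin n × Fin k) ℚ
  i : ℂ
  hC : C.det ≠ 0
  hh : ∀ j, (h j).det ≠ 0
  hG : Gen 𝒩 d C h l
  hΦ : ∀ j, h j * En (tc N) (-l j) * C * Φ j = Φ0 j * (h j * En (tc N) (-l j) * C)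
  hsh : ∀ j, Up lev 1 (Φ0 j - diagonal fun a => ((lev a : ℤ) : ℂ))
  hbr : ∀ a b, x a * x b - x b * x a ∈ Submodule.span ℚ (Set.range x)
  hmem : blockDiagonal Φ ∈ Submodule.span ℂ (Set.range fun a => tc (x a))
  hZ : ∀ j, Z j ∈ Submodule.span ℂ 𝒩
  hY : ∀ j, C * Y j = (Z j + μ j • tc N) * C
  hi : ∀ m : ℕ, i ≠ (m : ℂ)
  heig : ∀ j, Y j * Φ j - Φ j * Y j = i • Y j
  hnot : blockDiagonal Y ∉ Submodule.span ℂ (Set.range fun a => tc (x a))

theorem mem_span_range {R M τ : Type} [Semiring R] [AddCommMonoid M] [Module R M] [Fintype τ]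
    {v : τ → M} {x : M} (h : x ∈ Submodule.span R (Set.range v)) : ∃ c : τ → R, x = ∑ a, c a • v a := by
  obtain ⟨c, hc⟩ := (Submodule.mem_span_range_iff_exists_fun R).1 h
  exact ⟨c, hc.symm⟩

theorem sum_mem_span {R M τ : Type} [Semiring R] [AddCommMonoid M] [Module R M] [Fintype τ]
    (v : τ → M) (c : τ → R) : ∑ a, c a • v a ∈ Submodule.span R (Set.range v) :=
  Submodule.sum_mem _ fun a _ => Submodule.smul_mem _ _ (Submodule.subset_span ⟨a, rfl⟩)

theorem bd_mul_sub {n k : ℕ} (A B C D : Fin k → Matrix (Fin n) (Fin n) ℂ) :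
    blockDiagonal A * blockDiagonal B - blockDiagonal C * blockDiagonal D =
      blockDiagonal fun j => A j * B j - C j * D j := by
  rw [← blockDiagonal_mul, ← blockDiagonal_mul, ← blockDiagonal_sub]
  rfl

theorem no_bad {n k : ℕ} {N : Matrix (Fin n) (Fin n) ℚ} (hN : N ^ n = 0)
    {𝒩 : Set (Matrix (Fin n) (Fin n) ℂ)} (hn : ∀ X ∈ 𝒩, X ^ n = 0)
    (hconj : ∀ X ∈ Submodule.span ℂ 𝒩, ∀ s, En (tc N) s * X * En (tc N) (-s) ∈ Submodule.span ℂ 𝒩)
    (hE : ∀ s, En (tc N) s * En (tc N) (-s) = 1)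
    {lev : Fin n → ℤ} (b : ∀ d : ℕ, Bad (k := k) N 𝒩 lev d) : False := by
  classical
  -- the period matrices
  set P : ℕ → Fin k → Matrix (Fin n) (Fin n) ℂ := fun d j =>
    (b d).h j * En (tc N) (-(b d).l j) * (b d).C with hPdef
  have hE' : ∀ s, En (tc N) (-s) * En (tc N) s = 1 := fun s => by
    have := hE (-s)
    rwa [neg_neg] at this
  have hdetE : ∀ s, (En (tc N) s).det ≠ 0 := by
    intro s h0
    have h1 := congrArg Matrix.det (hE s)
    rw [Matrix.det_mul, h0, zero_mul, Matrix.det_one] at h1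
    exact zero_ne_one h1
  have hdetP : ∀ d j, IsUnit (P d j).det := by
    intro d j
    rw [isUnit_iff_ne_zero]
    simp only [hPdef, Matrix.det_mul]
    exact mul_ne_zero (mul_ne_zero ((b d).hh j) (hdetE _)) (b d).hC
  -- the derivation
  set W' : ℕ → Fin k → Matrix (Fin n) (Fin n) ℂ := fun d j =>
    En (tc N) (-(b d).l j) * (b d).Z j * En (tc N) ((b d).l j) with hW'
  have hWm : ∀ d j, W' d j ∈ Submodule.span ℂ 𝒩 := by
    intro d j
    have h1 := hconj _ ((b d).hZ j) (-(b d).l j)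
    rwa [neg_neg] at h1
  obtain ⟨D, hD⟩ := exists_der (fun d => pt (b d).C (b d).h (b d).l)
    (fun d => vt (b d).h (W' d) fun j => -(b d).μ j)
    (fun d Q hQ hQ0 => tangent hn (b d).hG hQ hQ0 (hWm d) _)
  have hDC : (gm fun d => (b d).C).map D = 0 := by
    ext a c
    rw [Matrix.map_apply, gm_apply, Matrix.zero_apply]
    have h1 := hD (Sum.inl (a, c))
    have h2 : mk ℂ (fun d => vt (b d).h (W' d) (fun j => -(b d).μ j) (Sum.inl (a, c))) = 0 :=
      map_zero (mk ℂ)
    rw [h2] at h1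
    exact h1
  have hDl : ∀ j, D (mk ℂ fun d => -(b d).l j) = mk ℂ fun d => (b d).μ j := by
    intro j
    have h1 := hD (Sum.inr (j, none))
    have h2 : mk ℂ (fun d => -(b d).l j) = -mk ℂ (fun d => (b d).l j) := by
      rw [← map_neg]
      rfl
    rw [h2, map_neg]
    have h3 : D (mk ℂ fun d => (b d).l j) = mk ℂ fun d => -(b d).μ j := h1
    rw [h3]
    have h4 : mk ℂ (fun d => -(b d).μ j) = -mk ℂ (fun d => (b d).μ j) := by
      rw [← map_neg]
      rfl
    rw [h4, neg_neg]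
  have hDh : ∀ j, (gm fun d => (b d).h j).map D = gm fun d => (b d).h j * W' d j := by
    intro j
    ext a c
    rw [Matrix.map_apply, gm_apply, gm_apply]
    exact hD (Sum.inr (j, some (a, c)))
  have hDP : ∀ j, (gm fun d => P d j).map D = gm fun d => P d j * (b d).Y j := by
    intro j
    have h1 : (gm fun d => P d j) = gm (fun d => (b d).h j) *
        En (gm fun _ => tc N) (mk ℂ fun d => -(b d).l j) * gm (fun d => (b d).C) := by
      rw [← gm_En, ← gm_mul, ← gm_mul]
    rw [h1, map_D_mul, map_D_mul, hDC, hDh, der_En hN, hDl, Matrix.mul_zero, add_zero, ← gm_En]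
    have e1 : (gm fun _ => tc N) * gm (fun d => En (tc N) (-(b d).l j)) =
        gm fun d => tc N * En (tc N) (-(b d).l j) := (gm_mul _ _).symm
    rw [e1, ← gm_smul (fun d => (b d).μ j), ← gm_mul, ← gm_mul, ← gm_add, ← gm_mul]
    congr 1
    funext d
    have h2 : (b d).C * (b d).Y j = ((b d).Z j + (b d).μ j • tc N) * (b d).C := (b d).hY j
    have h3 : P d j * (b d).Y j = (b d).h j * (En (tc N) (-(b d).l j) *
        (((b d).Z j + (b d).μ j • tc N)) * (b d).C) := by
      simp only [hPdef]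
      rw [Matrix.mul_assoc _ (b d).C, h2]
      simp only [Matrix.mul_assoc]
    rw [h3]
    have h4 : (b d).h j * W' d j * En (tc N) (-(b d).l j) =
        (b d).h j * (En (tc N) (-(b d).l j) * (b d).Z j) := by
      simp only [hW']
      rw [Matrix.mul_assoc, Matrix.mul_assoc, hE ((b d).l j), Matrix.mul_one]
    rw [h4, Matrix.mul_smul, En_comm, Matrix.mul_add, Matrix.mul_smul, ← Matrix.mul_assoc _ _ (b d).C,
      Matrix.mul_add, Matrix.mul_smul]
  -- the matrices of all points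
  set BP : Matrix (Fin n × Fin k) (Fin n × Fin k) (U ℂ) := gm fun d => blockDiagonal (P d) with hBP
  set BP' : Matrix (Fin n × Fin k) (Fin n × Fin k) (U ℂ) :=
    gm fun d => blockDiagonal fun j => (P d j)⁻¹ with hBP'
  set BY : Matrix (Fin n × Fin k) (Fin n × Fin k) (U ℂ) := gm fun d => blockDiagonal (b d).Y with hBY
  set BΦ : Matrix (Fin n × Fin k) (Fin n × Fin k) (U ℂ) := gm fun d => blockDiagonal (b d).Φ with hBΦ
  set BΦ0 : Matrix (Fin n × Fin k) (Fin n × Fin k) (U ℂ) := gm fun d => blockDiagonal (b d).Φ0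
    with hBΦ0
  set X : (Fin n × Fin k) × (Fin n × Fin k) → Matrix (Fin n × Fin k) (Fin n × Fin k) (U ℂ) :=
    fun a => gm fun d => tc ((b d).x a) with hX
  have hsum : ∀ (c : (Fin n × Fin k) × (Fin n × Fin k) → ℕ → ℂ),
      gm (fun d => ∑ a, c a d • tc ((b d).x a)) = ∑ a, mk ℂ (c a) • X a := by
    intro c
    rw [gm_sum]
    exact Finset.sum_congr rfl fun a _ => gm_smul _ _
  have hspan : ∀ (A : ℕ → Matrix (Fin n × Fin k) (Fin n × Fin k) ℂ),
      (∀ d, A d ∈ Submodule.span ℂ (Set.range fun a => tc ((b d).x a))) →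
      gm A ∈ Submodule.span (U ℂ) (Set.range X) := by
    intro A hA
    choose c hc using fun d => mem_span_range (hA d)
    have h1 : A = fun d => ∑ a, c d a • tc ((b d).x a) := funext hc
    rw [h1, hsum fun a d => c d a]
    exact sum_mem_span _ _
  have hbd1 : ∀ (A B : ℕ → Fin k → Matrix (Fin n) (Fin n) ℂ),
      gm (fun d => blockDiagonal (A d)) * gm (fun d => blockDiagonal (B d)) =
        gm fun d => blockDiagonal fun j => A d j * B d j := by
    intro A B
    rw [← gm_mul]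
    congr 1
    funext d
    rw [← blockDiagonal_mul]
  have hone : (gm fun _ => blockDiagonal fun _ : Fin k => (1 : Matrix (Fin n) (Fin n) ℂ)) = 1 := by
    have h1 : (blockDiagonal fun _ : Fin k => (1 : Matrix (Fin n) (Fin n) ℂ)) = 1 :=
      blockDiagonal_one
    rw [h1, gm_one]
  have hPP' : BP * BP' = 1 := by
    rw [hBP, hBP', hbd1, ← hone]
    congr 1
    funext d
    congr 1
    funext j
    exact Matrix.mul_nonsing_inv _ (hdetP d j)
  have hP'P : BP' * BP = 1 := by
    rw [hBP, hBP', hbd1, ← hone]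
    congr 1
    funext d
    congr 1
    funext j
    exact Matrix.nonsing_inv_mul _ (hdetP d j)
  have hDBP : BP.map D = BP * BY := by
    rw [hBP, hBY, hbd1]
    ext ⟨a, j⟩ ⟨c, j'⟩
    rw [Matrix.map_apply, gm_apply, gm_apply]
    simp only [blockDiagonal_apply]
    by_cases hj : j = j'
    · simp only [if_pos hj]
      have h1 := congrFun (congrFun (hDP j) a) c
      rw [Matrix.map_apply, gm_apply, gm_apply] at h1
      exact h1
    · simp only [if_neg hj]
      have h1 : mk ℂ (fun _ => (0 : ℂ)) = 0 := map_zero (mk ℂ)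
      rw [h1, map_zero]
  have hΦ0 : BP * BΦ = BΦ0 * BP := by
    rw [hBP, hBΦ, hBΦ0, hbd1, hbd1]
    congr 1
    funext d
    congr 1
    funext j
    exact (b d).hΦ j
  have hsh : Up (fun a : Fin n × Fin k => lev a.1) 1
      (BΦ0 - diagonal fun a => ((lev a.1 : ℤ) : U ℂ)) := by
    rintro ⟨a, j⟩ ⟨c, j'⟩ hac
    rw [Matrix.sub_apply, hBΦ0, gm_apply, Matrix.diagonal_apply]
    simp only [blockDiagonal_apply]
    by_cases hj : j = j'
    · subst hj
      simp only [if_pos]
      have h1 : ∀ d, (b d).Φ0 j a c = if a = c then ((lev a : ℤ) : ℂ) else 0 := by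
        intro d
        have h2 := (b d).hsh j a c hac
        rw [Matrix.sub_apply, Matrix.diagonal_apply, sub_eq_zero] at h2
        exact h2
      simp only [h1]
      by_cases ha : a = c
      · subst ha
        simp only [if_pos]
        have h2 : mk ℂ (fun _ => ((lev a : ℤ) : ℂ)) = ((lev a : ℤ) : U ℂ) := by
          have h3 : (fun _ : ℕ => ((lev a : ℤ) : ℂ)) = ((lev a : ℤ) : ℕ → ℂ) := by
            funext d
            simp
          rw [h3, map_intCast]
        rw [h2, sub_self]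
      · have h2 : ¬ ((a, j) : Fin n × Fin k) = (c, j) := fun h => ha (Prod.ext_iff.1 h).1
        simp only [if_neg ha, if_neg h2, sub_zero]
        exact map_zero (mk ℂ)
    · have h2 : ¬ ((a, j) : Fin n × Fin k) = (c, j') := fun h => hj (Prod.ext_iff.1 h).2
      simp only [if_neg hj, if_neg h2, sub_zero]
      exact map_zero (mk ℂ)
  have hXD : ∀ a, (X a).map D = 0 := by
    intro a
    ext p q
    rw [Matrix.map_apply, Matrix.zero_apply]
    exact der_rat D fun d => (b d).x a p q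
  have hXbr : ∀ a c, X a * X c - X c * X a ∈ Submodule.span (U ℂ) (Set.range X) := by
    intro a c
    have h1 : X a * X c - X c * X a =
        gm fun d => tc ((b d).x a * (b d).x c - (b d).x c * (b d).x a) := by
      simp only [hX]
      rw [← gm_mul, ← gm_mul, ← gm_sub]
      congr 1
      funext d
      rw [tc_sub, tc_mul, tc_mul]
    rw [h1]
    refine hspan _ fun d => ?_
    obtain ⟨e, he⟩ := mem_span_range ((b d).hbr a c)
    rw [he]
    have h2 : tc (∑ t, e t • (b d).x t) = ∑ t, ((e t : ℚ) : ℂ) • tc ((b d).x t) := by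
      ext p q
      simp only [tc, Matrix.map_apply, Matrix.sum_apply, Matrix.smul_apply, smul_eq_mul]
      push_cast
      rfl
    rw [h2]
    exact sum_mem_span _ _
  have hΦm : BΦ ∈ Submodule.span (U ℂ) (Set.range X) := hspan _ fun d => (b d).hmem
  have hmi : ∀ m : ℕ, mk ℂ (fun d => (b d).i) ≠ (m : U ℂ) := by
    intro m h0
    have h1 : (m : U ℂ) = mk ℂ (m : ℕ → ℂ) := (map_natCast (mk ℂ) m).symm
    rw [h1, mk_eq] at h0
    obtain ⟨d, hd⟩ := h0.exists
    exact (b d).hi m hd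
  have hYe : BY * BΦ - BΦ * BY = mk ℂ (fun d => (b d).i) • BY := by
    rw [hBY, hBΦ, hbd1, hbd1, ← gm_sub, ← gm_smul]
    congr 1
    funext d
    rw [← blockDiagonal_sub, ← blockDiagonal_smul]
    congr 1
    funext j
    exact (b d).heig j
  have hfin := main_lin D (fun a : Fin n × Fin k => lev a.1) hPP' hP'P hDBP hΦ0 hsh X hXD hXbr hΦm _
    hmi hYe
  obtain ⟨c, hc⟩ := mem_span_range hfin
  choose c' hc' using fun a => mk_surj (c a)
  have h1 : BY = gm fun d => ∑ a, c' a d • tc ((b d).x a) := by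
    rw [hc, hsum]
    exact Finset.sum_congr rfl fun a _ => by rw [hc']
  rw [hBY, gm_ext] at h1
  obtain ⟨d, hd⟩ := h1.exists
  apply (b d).hnot
  rw [hd]
  exact sum_mem_span _ _

end Pool.Agent.T2h17.HW
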