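import Pool.Agent.T2h17.HW.Fil

/-!
The Lie algebras of the isometries of alternating and symmetric forms are generated by their elements
of negative degree for a polarised Hodge structure.
-/

set_option autoImplicit false
set_option maxHeartbeats 400000

open Matrix

namespace Pool.Agent.T2h17.HW

/-! ### complexifications of rational subspaces -/

section desc
set_option linter.unusedSectionVars false
variable {ι : Type} [Fintype ι] [DecidableEq ι]

theorem mem_of_map {V : Submodule ℚ (Matrix ι ι ℚ)} {Z : Matrix ι ι ℂ}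
    (h : Z ∈ Submodule.span ℂ (tc '' (V : Set (Matrix ι ι ℚ)))) (f : ℂ →ₗ[ℚ] ℚ) : Z.map f ∈ V := by
  have key : ∀ (c : ℂ) (X : Matrix ι ι ℚ), (c • tc X).map f = f c • X := by
    intro c X
    ext i j
    rw [Matrix.map_apply, Matrix.smul_apply, Matrix.smul_apply, tc, Matrix.map_apply, smul_eq_mul,
      smul_eq_mul]
    have h1 : c * ((X i j : ℚ) : ℂ) = (X i j) • c := by
      rw [Rat.smul_def, mul_comm]
    rw [h1, map_smul, smul_eq_mul, mul_comm]
  rw [Submodule.mem_span_iff_exists_finset_subset] at h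
  obtain ⟨c, t, ht, -, rfl⟩ := h
  have h1 : (∑ a ∈ t, c a • a).map f = ∑ a ∈ t, (c a • a).map f := by
    ext i j
    simp [Matrix.sum_apply]
  rw [h1]
  refine Submodule.sum_mem _ fun a ha => ?_
  obtain ⟨X, hX, rfl⟩ := ht ha
  rw [key]
  exact V.smul_mem _ hX

theorem mem_of_maps {V : Submodule ℚ (Matrix ι ι ℚ)} {Z : Matrix ι ι ℂ}
    (h : ∀ f : ℂ →ₗ[ℚ] ℚ, Z.map f ∈ V) : Z ∈ Submodule.span ℂ (tc '' (V : Set (Matrix ι ι ℚ))) := by
  classical
  let b := Module.Basis.ofVectorSpace ℚ ℂ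
  -- the finitely many coordinates which occur
  set s : Finset (Module.Basis.ofVectorSpaceIndex ℚ ℂ) :=
    Finset.univ.biUnion fun p : ι × ι => (b.repr (Z p.1 p.2)).support with hs
  have h1 : Z = ∑ a ∈ s, b a • tc (Z.map (b.coord a)) := by
    ext i j
    rw [Matrix.sum_apply]
    have h2 : Z i j = ∑ a ∈ s, (b.repr (Z i j)) a • b a := by
      conv_lhs => rw [← b.linearCombination_repr (Z i j), Finsupp.linearCombination_apply]
      refine Finsupp.sum_of_support_subset _ ?_ _ fun a _ => zero_smul _ _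
      intro a ha
      rw [hs, Finset.mem_biUnion]
      exact ⟨(i, j), Finset.mem_univ _, ha⟩
    rw [h2]
    refine Finset.sum_congr rfl fun a _ => ?_
    rw [Matrix.smul_apply, tc, Matrix.map_apply, Matrix.map_apply, smul_eq_mul, Rat.smul_def, mul_comm]
    rfl
  rw [h1]
  refine Submodule.sum_mem _ fun a _ => Submodule.smul_mem _ _ (Submodule.subset_span ⟨_, h _, rfl⟩)

theorem mem_of_tc {V : Submodule ℚ (Matrix ι ι ℚ)} {X : Matrix ι ι ℚ}
    (h : tc X ∈ Submodule.span ℂ (tc '' (V : Set (Matrix ι ι ℚ)))) : X ∈ V := by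
  obtain ⟨f, hf⟩ := (Algebra.linearMap ℚ ℂ).exists_leftInverse_of_injective
    (LinearMap.ker_eq_bot.2 (algebraMap ℚ ℂ).injective)
  have h1 := mem_of_map h f
  have h2 : (tc X).map f = X := by
    ext i j
    rw [Matrix.map_apply, tc, Matrix.map_apply]
    exact DFunLike.congr_fun hf (X i j)
  rwa [h2] at h1

theorem span_bracket {V : Submodule ℚ (Matrix ι ι ℚ)} (hV : ∀ X ∈ V, ∀ Y ∈ V, X * Y - Y * X ∈ V)
    {Z W : Matrix ι ι ℂ} (hZ : Z ∈ Submodule.span ℂ (tc '' (V : Set (Matrix ι ι ℚ))))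
    (hW : W ∈ Submodule.span ℂ (tc '' (V : Set (Matrix ι ι ℚ)))) :
    Z * W - W * Z ∈ Submodule.span ℂ (tc '' (V : Set (Matrix ι ι ℚ))) := by
  have h1 : ∀ X ∈ V, ∀ W ∈ Submodule.span ℂ (tc '' (V : Set (Matrix ι ι ℚ))),
      tc X * W - W * tc X ∈ Submodule.span ℂ (tc '' (V : Set (Matrix ι ι ℚ))) := by
    intro X hX W hW
    induction hW using Submodule.span_induction with
    | mem W h =>
      obtain ⟨Y, hY, rfl⟩ := h
      rw [← tc_mul, ← tc_mul, ← tc_sub]
      exact Submodule.subset_span ⟨_, hV X hX Y hY, rfl⟩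
    | zero =>
      rw [Matrix.mul_zero, Matrix.zero_mul, sub_zero]
      exact Submodule.zero_mem _
    | add W W' _ _ h1 h2 =>
      have h3 : tc X * (W + W') - (W + W') * tc X = (tc X * W - W * tc X) + (tc X * W' - W' * tc X) := by
        rw [Matrix.mul_add, Matrix.add_mul]
        abel
      rw [h3]
      exact Submodule.add_mem _ h1 h2
    | smul c W _ h1 =>
      rw [Matrix.mul_smul, Matrix.smul_mul, ← smul_sub]
      exact Submodule.smul_mem _ _ h1
  induction hZ using Submodule.span_induction with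
  | mem Z h =>
    obtain ⟨X, hX, rfl⟩ := h
    exact h1 X hX W hW
  | zero =>
    rw [Matrix.mul_zero, Matrix.zero_mul, sub_zero]
    exact Submodule.zero_mem _
  | add Z Z' _ _ h1 h2 =>
    have h3 : (Z + Z') * W - W * (Z + Z') = (Z * W - W * Z) + (Z' * W - W * Z') := by
      rw [Matrix.mul_add, Matrix.add_mul]
      abel
    rw [h3]
    exact Submodule.add_mem _ h1 h2
  | smul c Z _ h1 =>
    rw [Matrix.mul_smul, Matrix.smul_mul, ← smul_sub]
    exact Submodule.smul_mem _ _ h1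

theorem span_star {V : Submodule ℚ (Matrix ι ι ℚ)} {Z : Matrix ι ι ℂ}
    (hZ : Z ∈ Submodule.span ℂ (tc '' (V : Set (Matrix ι ι ℚ)))) :
    Z.map star ∈ Submodule.span ℂ (tc '' (V : Set (Matrix ι ι ℚ))) := by
  induction hZ using Submodule.span_induction with
  | mem Z h =>
    obtain ⟨X, hX, rfl⟩ := h
    have h1 : (tc X).map star = tc X := by
      ext i j
      rw [Matrix.map_apply, tc, Matrix.map_apply]
      simp
    rw [h1]
    exact Submodule.subset_span ⟨X, hX, rfl⟩
  | zero =>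
    have h1 : (0 : Matrix ι ι ℂ).map star = 0 := by
      ext i j
      simp
    rw [h1]
    exact Submodule.zero_mem _
  | add Z Z' _ _ h1 h2 =>
    have h3 : (Z + Z').map star = Z.map star + Z'.map star := by
      ext i j
      simp
    rw [h3]
    exact Submodule.add_mem _ h1 h2
  | smul c Z _ h1 =>
    have h3 : (c • Z).map star = star c • Z.map star := by
      ext i j
      simp
    rw [h3]
    exact Submodule.smul_mem _ _ h1

end desc

/-! ### the Lie algebra of the isometries -/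

section cls
variable {n : ℕ}

/-- the form on rows -/
def pr (Q : Matrix (Fin n) (Fin n) ℂ) (x y : Fin n → ℂ) : ℂ := (x ᵥ* Q) ⬝ᵥ y

/-- the elements of rank two of the Lie algebra -/
def El (Q : Matrix (Fin n) (Fin n) ℂ) (ε : ℂ) (u w : Fin n → ℂ) : Matrix (Fin n) (Fin n) ℂ :=
  vecMulVec (Q *ᵥ u) w - ε • vecMulVec (Q *ᵥ w) u

theorem pr_eq (Q : Matrix (Fin n) (Fin n) ℂ) (x y : Fin n → ℂ) : pr Q x y = x ⬝ᵥ (Q *ᵥ y) := by
  unfold pr
  rw [dotProduct_mulVec]

theorem vecMul_El (Q : Matrix (Fin n) (Fin n) ℂ) (ε : ℂ) (u w x : Fin n → ℂ) :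
    x ᵥ* El Q ε u w = pr Q x u • w - (ε * pr Q x w) • u := by
  unfold El
  rw [Matrix.vecMul_sub, Matrix.vecMul_smul, vecMul_vecMulVec, vecMul_vecMulVec, pr_eq, pr_eq,
    smul_smul]

theorem pr_add_left (Q : Matrix (Fin n) (Fin n) ℂ) (x x' y : Fin n → ℂ) :
    pr Q (x + x') y = pr Q x y + pr Q x' y := by
  unfold pr
  rw [add_vecMul, add_dotProduct]

theorem pr_smul_left (Q : Matrix (Fin n) (Fin n) ℂ) (c : ℂ) (x y : Fin n → ℂ) :
    pr Q (c • x) y = c * pr Q x y := by
  unfold pr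
  rw [smul_vecMul, smul_dotProduct, smul_eq_mul]

theorem pr_add_right (Q : Matrix (Fin n) (Fin n) ℂ) (x y y' : Fin n → ℂ) :
    pr Q x (y + y') = pr Q x y + pr Q x y' := by
  unfold pr
  rw [dotProduct_add]

theorem pr_smul_right (Q : Matrix (Fin n) (Fin n) ℂ) (c : ℂ) (x y : Fin n → ℂ) :
    pr Q x (c • y) = c * pr Q x y := by
  unfold pr
  rw [dotProduct_smul, smul_eq_mul]

theorem pr_symm {Q : Matrix (Fin n) (Fin n) ℂ} {ε : ℂ} (hQ : Qᵀ = ε • Q) (x y : Fin n → ℂ) :
    pr Q y x = ε * pr Q x y := by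
  rw [pr_eq, pr]
  have h1 : y ⬝ᵥ (Q *ᵥ x) = (x ᵥ* Qᵀ) ⬝ᵥ y := by
    rw [vecMul_transpose, dotProduct_comm]
  rw [h1, hQ, vecMul_smul, smul_dotProduct, smul_eq_mul]

theorem El_add_left (Q : Matrix (Fin n) (Fin n) ℂ) (ε : ℂ) (u u' w : Fin n → ℂ) :
    El Q ε (u + u') w = El Q ε u w + El Q ε u' w := by
  unfold El
  rw [mulVec_add, add_vecMulVec, vecMulVec_add, smul_add]
  abel

theorem El_add_right (Q : Matrix (Fin n) (Fin n) ℂ) (ε : ℂ) (u w w' : Fin n → ℂ) :
    El Q ε u (w + w') = El Q ε u w + El Q ε u w' := by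
  unfold El
  rw [mulVec_add, add_vecMulVec, vecMulVec_add, smul_add]
  abel

theorem El_smul_left (Q : Matrix (Fin n) (Fin n) ℂ) (ε c : ℂ) (u w : Fin n → ℂ) :
    El Q ε (c • u) w = c • El Q ε u w := by
  unfold El
  rw [mulVec_smul, smul_vecMulVec, vecMulVec_smul, smul_sub, smul_comm ε c]

theorem El_smul_right (Q : Matrix (Fin n) (Fin n) ℂ) (ε c : ℂ) (u w : Fin n → ℂ) :
    El Q ε u (c • w) = c • El Q ε u w := by
  unfold El
  rw [mulVec_smul, smul_vecMulVec, vecMulVec_smul, smul_sub, smul_comm ε c]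

theorem El_zero_left (Q : Matrix (Fin n) (Fin n) ℂ) (ε : ℂ) (w : Fin n → ℂ) : El Q ε 0 w = 0 := by
  have := El_smul_left Q ε 0 0 w
  rwa [zero_smul, zero_smul] at this

theorem El_zero_right (Q : Matrix (Fin n) (Fin n) ℂ) (ε : ℂ) (w : Fin n → ℂ) : El Q ε w 0 = 0 := by
  have := El_smul_right Q ε 0 w 0
  rwa [zero_smul, zero_smul] at this

theorem El_symm (Q : Matrix (Fin n) (Fin n) ℂ) {ε : ℂ} (hε : ε * ε = 1) (u w : Fin n → ℂ) :
    El Q ε w u = -(ε • El Q ε u w) := by
  unfold El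
  rw [smul_sub, smul_smul, hε, one_smul]
  abel

/-- row vectors determine matrices -/
theorem ext_vecMul {A B : Matrix (Fin n) (Fin n) ℂ} (h : ∀ x, x ᵥ* A = x ᵥ* B) : A = B := by
  ext i j
  have h1 := congrFun (h (Pi.single i 1)) j
  rwa [single_one_vecMul, single_one_vecMul] at h1

theorem El_bracket {Q : Matrix (Fin n) (Fin n) ℂ} {ε : ℂ} (u w : Fin n → ℂ)
    {X : Matrix (Fin n) (Fin n) ℂ} (hX : ∀ x y, pr Q (x ᵥ* X) y = -pr Q x (y ᵥ* X)) :
    El Q ε u w * X - X * El Q ε u w = El Q ε u (w ᵥ* X) + El Q ε (u ᵥ* X) w := by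
  refine ext_vecMul fun x => ?_
  rw [Matrix.vecMul_sub, Matrix.vecMul_add, ← vecMul_vecMul, ← vecMul_vecMul, vecMul_El, vecMul_El,
    vecMul_El, vecMul_El, sub_vecMul, smul_vecMul, smul_vecMul, hX, hX]
  module

/-- the elements of rank two are infinitesimal isometries -/
theorem El_inf {Q : Matrix (Fin n) (Fin n) ℂ} {ε : ℂ} (hε : ε * ε = 1) (hQ : Qᵀ = ε • Q)
    (u w x y : Fin n → ℂ) : pr Q (x ᵥ* El Q ε u w) y = -pr Q x (y ᵥ* El Q ε u w) := by
  rw [vecMul_El, vecMul_El, sub_eq_add_neg, ← neg_smul, sub_eq_add_neg, ← neg_smul, pr_add_left,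
    pr_smul_left, pr_smul_left, pr_add_right, pr_smul_right, pr_smul_right, pr_symm hQ y w,
    pr_symm hQ y u]
  linear_combination (-(pr Q x w * pr Q y u)) * hε

theorem inf_iff (Q X : Matrix (Fin n) (Fin n) ℂ) :
    (∀ x y, pr Q (x ᵥ* X) y = -pr Q x (y ᵥ* X)) ↔ X * Q + Q * Xᵀ = 0 := by
  have h1 : ∀ x y, pr Q (x ᵥ* X) y = (x ᵥ* (X * Q)) ⬝ᵥ y := fun x y => by
    rw [pr, vecMul_vecMul]
  have h2 : ∀ x y, pr Q x (y ᵥ* X) = (x ᵥ* (Q * Xᵀ)) ⬝ᵥ y := fun x y => by
    have h3 : y ᵥ* X = Xᵀ *ᵥ y := (mulVec_transpose X y).symm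
    rw [pr, h3, dotProduct_mulVec, vecMul_vecMul]
  constructor
  · intro h
    ext i j
    have h3 := h (Pi.single i 1) (Pi.single j 1)
    rw [h1, h2, single_one_vecMul, single_one_vecMul, dotProduct_single_one,
      dotProduct_single_one] at h3
    rw [Matrix.add_apply, Matrix.zero_apply]
    exact add_eq_zero_iff_eq_neg.2 h3
  · intro h x y
    rw [h1, h2, ← neg_dotProduct, ← vecMul_neg, eq_neg_of_add_eq_zero_left h]

theorem map_mul_right (f : ℂ →ₗ[ℚ] ℚ) (Z : Matrix (Fin n) (Fin n) ℂ) (Q : Matrix (Fin n) (Fin n) ℚ) :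
    (Z * tc Q).map f = Z.map f * Q := by
  ext i j
  rw [Matrix.map_apply, Matrix.mul_apply, Matrix.mul_apply, map_sum]
  refine Finset.sum_congr rfl fun k _ => ?_
  have h1 : Z i k * tc Q k j = (Q k j) • Z i k := by
    rw [Rat.smul_def, mul_comm]
    rfl
  rw [h1, map_smul, smul_eq_mul, mul_comm, Matrix.map_apply]

theorem map_mul_left (f : ℂ →ₗ[ℚ] ℚ) (Z : Matrix (Fin n) (Fin n) ℂ) (Q : Matrix (Fin n) (Fin n) ℚ) :
    (tc Q * Z).map f = Q * Z.map f := by
  ext i j
  rw [Matrix.map_apply, Matrix.mul_apply, Matrix.mul_apply, map_sum]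
  refine Finset.sum_congr rfl fun k _ => ?_
  have h1 : tc Q i k * Z k j = (Q i k) • Z k j := by
    rw [Rat.smul_def]
    rfl
  rw [h1, map_smul, smul_eq_mul, Matrix.map_apply]

/-- the rational infinitesimal isometries -/
def Isl (Q : Matrix (Fin n) (Fin n) ℚ) : Submodule ℚ (Matrix (Fin n) (Fin n) ℚ) where
  carrier := {X | X * Q + Q * Xᵀ = 0}
  add_mem' := fun {X Y} (hX : X * Q + Q * Xᵀ = 0) (hY : Y * Q + Q * Yᵀ = 0) => by
    show (X + Y) * Q + Q * (X + Y)ᵀ = 0
    have h1 : (X + Y) * Q + Q * (X + Y)ᵀ = (X * Q + Q * Xᵀ) + (Y * Q + Q * Yᵀ) := by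
      rw [transpose_add, Matrix.add_mul, Matrix.mul_add]
      abel
    rw [h1, hX, hY, add_zero]
  zero_mem' := by
    show (0 : Matrix (Fin n) (Fin n) ℚ) * Q + Q * (0 : Matrix (Fin n) (Fin n) ℚ)ᵀ = 0
    rw [Matrix.zero_mul, transpose_zero, Matrix.mul_zero, add_zero]
  smul_mem' := fun c X (hX : X * Q + Q * Xᵀ = 0) => by
    show (c • X) * Q + Q * (c • X)ᵀ = 0
    rw [transpose_smul, Matrix.smul_mul, Matrix.mul_smul, ← smul_add, hX, smul_zero]

theorem isl_span {Q : Matrix (Fin n) (Fin n) ℚ} {Z : Matrix (Fin n) (Fin n) ℂ}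
    (hZ : Z * tc Q + tc Q * Zᵀ = 0) :
    Z ∈ Submodule.span ℂ (tc '' (Isl Q : Set (Matrix (Fin n) (Fin n) ℚ))) := by
  refine mem_of_maps fun f => ?_
  show Z.map f * Q + Q * (Z.map f)ᵀ = 0
  have h1 : (Z.map f)ᵀ = Zᵀ.map f := rfl
  rw [h1, ← map_mul_right, ← map_mul_left]
  have h2 : (Z * tc Q).map f + (tc Q * Zᵀ).map f = (Z * tc Q + tc Q * Zᵀ).map f := by
    ext i j
    simp
  rw [h2, hZ]
  ext i j
  simp

/-- **generation by the elements of negative degree** -/
theorem gen_neg {Q : Matrix (Fin n) (Fin n) ℚ} {w : ℤ} {ε : ℂ} (hQ : (tc Q)ᵀ = ε • tc Q)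
    (hdet : (tc Q).det ≠ 0) (V : ℤ → Submodule ℂ (Fin n → ℂ)) (htop : ⨆ r, V r = ⊤)
    (hconj : ∀ p, ∀ v ∈ V p, (fun i => star (v i)) ∈ V (w - p))
    (horth : ∀ p r, p + r ≠ w → ∀ v ∈ V p, ∀ v' ∈ V r, pr (tc Q) v v' = 0)
    {Φ : Matrix (Fin n) (Fin n) ℂ} (hΦ : ∀ p, ∀ v ∈ V p, v ᵥ* Φ = (p : ℂ) • v)
    (hcase : (ε = -1 ∧ ∀ p : ℤ, 2 * p ≠ w) ∨
      (ε = 1 ∧ ∃ p q : ℤ, V p ≠ ⊥ ∧ V q ≠ ⊥ ∧ q ≠ p ∧ q ≠ w - p))
    {𝔞 : Submodule ℚ (Matrix (Fin n) (Fin n) ℚ)} (hbr : ∀ X ∈ 𝔞, ∀ Y ∈ 𝔞, X * Y - Y * X ∈ 𝔞)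
    (hneg : ∀ i : ℤ, i < 0 → ∀ Y ∈ Submodule.span ℂ (tc '' (Isl Q : Set (Matrix (Fin n) (Fin n) ℚ))),
      Y * Φ - Φ * Y = (i : ℂ) • Y →
      Y ∈ Submodule.span ℂ (tc '' (𝔞 : Set (Matrix (Fin n) (Fin n) ℚ))))
    {X : Matrix (Fin n) (Fin n) ℚ} (hX : X * Q + Q * Xᵀ = 0) : X ∈ 𝔞 := by
  have hε : ε * ε = 1 := by
    rcases hcase with ⟨h, -⟩ | ⟨h, -⟩ <;> rw [h] <;> norm_num
  have hεs : star ε = ε := by
    rcases hcase with ⟨h, -⟩ | ⟨h, -⟩ <;> rw [h] <;> simp
  set A := Submodule.span ℂ (tc '' (𝔞 : Set (Matrix (Fin n) (Fin n) ℚ))) with hA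
  set P := pr (tc Q) with hP
  have hin : ∀ u v : Fin n → ℂ, El (tc Q) ε u v * tc Q + tc Q * (El (tc Q) ε u v)ᵀ = 0 := fun u v =>
    (inf_iff _ _).1 fun x y => El_inf hε hQ u v x y
  -- the form and the Hodge operator
  have hPΦ : ∀ x y, P (x ᵥ* Φ) y + P x (y ᵥ* Φ) = (w : ℂ) * P x y := by
    intro x y
    have hx : x ∈ ⨆ r, V r := by rw [htop]; trivial
    have hy : y ∈ ⨆ r, V r := by rw [htop]; trivial
    induction hx using Submodule.iSup_induction' with
    | mem a x hx =>
      induction hy using Submodule.iSup_induction' with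
      | mem b y hy =>
        rw [hΦ a x hx, hΦ b y hy, hP, pr_smul_left, pr_smul_right]
        by_cases hab : a + b = w
        · rw [← hab]
          push_cast
          ring
        · have h0 : pr (tc Q) x y = 0 := horth a b hab x hx y hy
          rw [h0]
          ring
      | zero =>
        have h0 : ∀ z, P z 0 = 0 := fun z => by
          rw [hP, pr, dotProduct_zero]
        simp only [zero_vecMul, h0, mul_zero, add_zero]
      | add y y' _ _ h1 h2 =>
        rw [hP] at h1 h2 ⊢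
        rw [add_vecMul, pr_add_right, pr_add_right, pr_add_right]
        linear_combination h1 + h2
    | zero =>
      have h0 : ∀ z, P 0 z = 0 := fun z => by
        rw [hP, pr, zero_vecMul, zero_dotProduct]
      simp only [zero_vecMul, h0, mul_zero, add_zero]
    | add x x' _ _ h1 h2 =>
      rw [hP] at h1 h2 ⊢
      rw [add_vecMul, pr_add_left, pr_add_left, pr_add_left]
      linear_combination h1 + h2
  have heig : ∀ p r : ℤ, ∀ u ∈ V p, ∀ v ∈ V r,
      El (tc Q) ε u v * Φ - Φ * El (tc Q) ε u v = (((p + r - w : ℤ)) : ℂ) • El (tc Q) ε u v := by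
    intro p r u hu v hv
    refine ext_vecMul fun x => ?_
    rw [Matrix.vecMul_sub, ← vecMul_vecMul, ← vecMul_vecMul, vecMul_smul, vecMul_El, vecMul_El,
      sub_vecMul, smul_vecMul, smul_vecMul, hΦ p u hu, hΦ r v hv]
    have h1 := hPΦ x u
    have h2 := hPΦ x v
    rw [hΦ p u hu, hP, pr_smul_right] at h1
    rw [hΦ r v hv, hP, pr_smul_right] at h2
    have h3 : pr (tc Q) (x ᵥ* Φ) u = ((w : ℂ) - p) * pr (tc Q) x u := by linear_combination h1
    have h4 : pr (tc Q) (x ᵥ* Φ) v = ((w : ℂ) - r) * pr (tc Q) x v := by linear_combination h2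
    rw [h3, h4]
    push_cast
    module
  -- the parts of nonzero degree
  have hmem : ∀ p r : ℤ, p + r ≠ w → ∀ u ∈ V p, ∀ v ∈ V r, El (tc Q) ε u v ∈ A := by
    have h1 : ∀ p r : ℤ, p + r < w → ∀ u ∈ V p, ∀ v ∈ V r, El (tc Q) ε u v ∈ A := by
      intro p r hpr u hu v hv
      exact hneg (p + r - w) (by linarith) _ (isl_span (hin u v)) (heig p r u hu v hv)
    intro p r hpr u hu v hv
    rcases lt_or_gt_of_ne hpr with h | h
    · exact h1 p r h u hu v hv
    · have h2 := span_star (h1 (w - p) (w - r) (by linarith) _ (hconj p u hu) _ (hconj r v hv))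
      have h3 : (El (tc Q) ε (fun i => star (u i)) fun i => star (v i)).map star = El (tc Q) ε u v := by
        have h4 : ∀ x : Fin n → ℂ, ∀ i, star ((tc Q *ᵥ fun i => star (x i)) i) = (tc Q *ᵥ x) i := by
          intro x i
          simp only [mulVec, dotProduct, star_sum, star_mul', star_star, tc, Matrix.map_apply]
          refine Finset.sum_congr rfl fun j _ => ?_
          congr 1
          simp
        ext i j
        rw [Matrix.map_apply, El, El, Matrix.sub_apply, Matrix.sub_apply, Matrix.smul_apply,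
          Matrix.smul_apply, vecMulVec_apply, vecMulVec_apply, vecMulVec_apply, vecMulVec_apply,
          star_sub, smul_eq_mul, smul_eq_mul, star_mul', star_mul', star_mul', hεs, star_star,
          star_star, h4, h4]
      rwa [h3] at h2
  -- duals
  have hdual : ∀ p, ∀ u ∈ V p, u ≠ 0 → ∃ a ∈ V (w - p), P u a = 1 := by
    intro p u hu hu0
    by_contra hcon
    push Not at hcon
    have h1 : ∀ a ∈ V (w - p), P u a = 0 := by
      intro a ha
      by_contra h2
      refine hcon ((P u a)⁻¹ • a) ((V (w - p)).smul_mem _ ha) ?_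
      rw [hP, pr_smul_right]
      exact inv_mul_cancel₀ h2
    have h2 : ∀ y, P u y = 0 := by
      intro y
      have hy : y ∈ ⨆ r, V r := by rw [htop]; trivial
      induction hy using Submodule.iSup_induction' with
      | mem b y hy =>
        by_cases hb : b = w - p
        · subst hb
          exact h1 y hy
        · exact horth p b (fun h => hb (by linarith)) u hu y hy
      | zero => rw [hP, pr, dotProduct_zero]
      | add y y' _ _ h1 h2 => rw [hP, pr_add_right, ← hP, h1, h2, add_zero]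
    apply hu0
    have h3 : u ᵥ* tc Q = 0 := by
      funext i
      have h4 := h2 (Pi.single i 1)
      rw [hP, pr, dotProduct_single_one] at h4
      exact h4
    have h5 : IsUnit (tc Q).det := isUnit_iff_ne_zero.2 hdet
    calc u = u ᵥ* (tc Q * (tc Q)⁻¹) := by rw [Matrix.mul_nonsing_inv _ h5, vecMul_one]
      _ = 0 := by rw [← vecMul_vecMul, h3, zero_vecMul]
  -- brackets
  have hbk : ∀ p r s q : ℤ, p + r ≠ w → s + q ≠ w → ∀ u ∈ V p, ∀ y ∈ V r, ∀ a ∈ V s, ∀ b ∈ V q,
      El (tc Q) ε u (P y a • b - (ε * P y b) • a) + El (tc Q) ε (P u a • b - (ε * P u b) • a) y ∈ A := by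
    intro p r s q h1 h2 u hu y hy a ha b hb
    have h3 := span_bracket hbr (hmem p r h1 u hu y hy) (hmem s q h2 a ha b hb)
    rw [El_bracket u y (fun x z => El_inf hε hQ a b x z), vecMul_El, vecMul_El] at h3
    exact h3
  -- all elements of degree zero
  have hzero : ∀ p : ℤ, ∀ u ∈ V p, ∀ v ∈ V (w - p), El (tc Q) ε u v ∈ A := by
    intro p u hu v hv
    by_cases hu0 : u = 0
    · rw [hu0, El_zero_left]
      exact A.zero_mem
    rcases hcase with ⟨hε1, hodd⟩ | ⟨hε1, p0, q0, hp0, hq0, hpq1, hpq2⟩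
    · obtain ⟨a, ha, hua⟩ := hdual p u hu hu0
      have hp2 : p + p ≠ w := fun h => hodd p (by linarith)
      have hp3 : (w - p) + (w - p) ≠ w := fun h => hodd p (by linarith)
      have hsy : ∀ x y, El (tc Q) ε x y = El (tc Q) ε y x := by
        intro x y
        rw [El_symm _ hε, hε1, neg_one_smul, neg_neg]
      have key : ∀ v ∈ V (w - p), El (tc Q) ε u v + P u v • El (tc Q) ε u a ∈ A := by
        intro v hv
        have h1 := hbk p p (w - p) (w - p) hp2 hp3 u hu u hu a ha v hv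
        have h2 : El (tc Q) ε u (P u a • v - (ε * P u v) • a) +
            El (tc Q) ε (P u a • v - (ε * P u v) • a) u =
            (2 : ℂ) • (El (tc Q) ε u v + P u v • El (tc Q) ε u a) := by
          rw [hsy (P u a • v - (ε * P u v) • a) u, hua, one_smul, hε1]
          have h3 : v - (-1 * P u v) • a = v + P u v • a := by
            rw [neg_one_mul, neg_smul, sub_neg_eq_add]
          rw [h3, El_add_right, El_smul_right, two_smul]
        rw [h2] at h1
        have h4 := A.smul_mem (1 / 2 : ℂ) h1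
        rw [smul_smul] at h4
        norm_num at h4
        exact h4
      have h1 := key a ha
      rw [hua, one_smul, ← two_smul ℂ] at h1
      have h2 : El (tc Q) ε u a ∈ A := by
        have h4 := A.smul_mem (1 / 2 : ℂ) h1
        rw [smul_smul] at h4
        norm_num at h4
        exact h4
      have h3 := A.sub_mem (key v hv) (A.smul_mem (P u v) h2)
      rwa [add_sub_cancel_right] at h3
    · obtain ⟨r, hr, hr1, hr2⟩ : ∃ r, V r ≠ ⊥ ∧ r ≠ p ∧ r ≠ w - p := by
        by_cases h1 : p0 ≠ p ∧ p0 ≠ w - p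
        · exact ⟨p0, hp0, h1⟩
        · refine ⟨q0, hq0, fun h2 => ?_, fun h2 => ?_⟩
          · rw [not_and_or, not_not, not_not] at h1
            rcases h1 with h1 | h1
            · exact hpq1 (by rw [h1, h2])
            · exact hpq2 (by rw [h1, h2]; ring)
          · rw [not_and_or, not_not, not_not] at h1
            rcases h1 with h1 | h1
            · exact hpq2 (by rw [h1, h2])
            · exact hpq1 (by rw [h1, h2])
      obtain ⟨y, hy, hy0⟩ := Submodule.exists_mem_ne_zero_of_ne_bot hr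
      obtain ⟨a, ha, hya⟩ := hdual r y hy hy0
      have hay : P a y = 1 := by
        rw [hP, pr_symm hQ y a, ← hP, hya, hε1, one_mul]
      have c1 : p + r ≠ w := fun h => hr2 (by linarith)
      have c2 : w - r + (w - p) ≠ w := fun h => hr2 (by linarith)
      have c3 : p + (w - r) ≠ w := fun h => hr1 (by linarith)
      have c4 : r + (w - p) ≠ w := fun h => hr1 (by linarith)
      have h1 := hbk p r (w - r) (w - p) c1 c2 u hu y hy a ha v hv
      have h2 := hbk p (w - r) r (w - p) c3 c4 u hu a ha y hy v hv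
      have z1 : P y v = 0 := horth r (w - p) c4 y hy v hv
      have z2 : P u a = 0 := horth p (w - r) c3 u hu a ha
      have z3 : P a v = 0 := horth (w - r) (w - p) c2 a ha v hv
      have z4 : P u y = 0 := horth p r c1 u hu y hy
      rw [hya, z1, z2] at h1
      rw [hay, z3, z4] at h2
      simp only [one_smul, mul_zero, zero_smul, sub_zero, zero_sub] at h1 h2
      have h3 := A.add_mem h1 h2
      have h4 : El (tc Q) ε u v + El (tc Q) ε (-((ε * P u v) • a)) y +
          (El (tc Q) ε u v + El (tc Q) ε (-((ε * P u v) • y)) a) = (2 : ℂ) • El (tc Q) ε u v := by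
        have h5 : El (tc Q) ε a y = -El (tc Q) ε y a := by
          rw [El_symm _ hε, hε1, one_smul]
        rw [← neg_smul, ← neg_smul, El_smul_left, El_smul_left, h5, two_smul]
        module
      rw [h4] at h3
      have h5 := A.smul_mem (1 / 2 : ℂ) h3
      rw [smul_smul] at h5
      norm_num at h5
      exact h5
  -- all elements
  have hall : ∀ u v, El (tc Q) ε u v ∈ A := by
    intro u v
    have hu : u ∈ ⨆ r, V r := by rw [htop]; trivial
    have hv : v ∈ ⨆ r, V r := by rw [htop]; trivial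
    induction hu using Submodule.iSup_induction' with
    | mem p u hu =>
      induction hv using Submodule.iSup_induction' with
      | mem r v hv =>
        by_cases h : p + r = w
        · obtain rfl : r = w - p := by linarith
          exact hzero p u hu v hv
        · exact hmem p r h u hu v hv
      | zero =>
        rw [El_zero_right]
        exact A.zero_mem
      | add v v' _ _ h1 h2 =>
        rw [El_add_right]
        exact A.add_mem h1 h2
    | zero =>
      rw [El_zero_left]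
      exact A.zero_mem
    | add u u' _ _ h1 h2 =>
      rw [El_add_left]
      exact A.add_mem h1 h2
  have hW : ∀ W : Matrix (Fin n) (Fin n) ℂ, tc Q * W - ε • (tc Q * Wᵀ) ∈ A := by
    intro W
    have h1 : tc Q * W - ε • (tc Q * Wᵀ) =
        ∑ i, ∑ j, W i j • El (tc Q) ε (Pi.single i 1) (Pi.single j 1) := by
      have h2 : ∀ i j : Fin n, El (tc Q) ε (Pi.single i 1) (Pi.single j 1) =
          tc Q * Matrix.single i j 1 - ε • (tc Q * (Matrix.single i j 1)ᵀ) := by
        intro i j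
        have h3 : ∀ i j : Fin n, vecMulVec (Pi.single i (1 : ℂ)) (Pi.single j (1 : ℂ)) =
            Matrix.single i j (1 : ℂ) := by
          intro i j
          ext a b
          rw [vecMulVec_apply, Matrix.single_apply, Pi.single_apply, Pi.single_apply]
          by_cases ha : a = i
          · by_cases hb : b = j
            · simp [ha, hb]
            · simp [hb, Ne.symm hb]
          · simp [ha, Ne.symm ha]
        rw [El, ← Matrix.mul_vecMulVec, ← Matrix.mul_vecMulVec, transpose_single, h3, h3]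
      simp only [h2]
      conv_lhs => rw [Matrix.matrix_eq_sum_single W]
      simp only [transpose_sum, Matrix.mul_sum, Finset.smul_sum, ← Finset.sum_sub_distrib]
      refine Finset.sum_congr rfl fun i _ => Finset.sum_congr rfl fun j _ => ?_
      have h3 : Matrix.single i j (W i j) = W i j • Matrix.single i j (1 : ℂ) := by
        rw [smul_single, smul_eq_mul, mul_one]
      rw [h3, transpose_smul, Matrix.mul_smul, Matrix.mul_smul, smul_sub, smul_comm ε]
    rw [h1]
    exact A.sum_mem fun i _ => A.sum_mem fun j _ => A.smul_mem _ (hall _ _)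
  refine mem_of_tc ?_
  have hXc : tc X * tc Q + tc Q * (tc X)ᵀ = 0 := by
    have h1 : (tc X)ᵀ = tc Xᵀ := rfl
    have h2 : tc (X * Q) + tc (Q * Xᵀ) = tc (X * Q + Q * Xᵀ) := by
      ext i j
      simp [tc]
    rw [h1, ← tc_mul, ← tc_mul, h2, hX]
    ext i j
    simp [tc]
  have hu : IsUnit (tc Q).det := isUnit_iff_ne_zero.2 hdet
  have h1 := hW ((1 / 2 : ℂ) • ((tc Q)⁻¹ * tc X))
  have h2 : tc Q * ((1 / 2 : ℂ) • ((tc Q)⁻¹ * tc X)) -
      ε • (tc Q * ((1 / 2 : ℂ) • ((tc Q)⁻¹ * tc X))ᵀ) = tc X := by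
    have h3 : tc Q * ((tc Q)⁻¹ * tc X) = tc X := by
      rw [← Matrix.mul_assoc, Matrix.mul_nonsing_inv _ hu, Matrix.one_mul]
    have h4 : ε • (tc Q * ((tc Q)⁻¹ * tc X)ᵀ) = -tc X := by
      have h5 : tc Q * (tc X)ᵀ = -(tc X * tc Q) := (eq_neg_of_add_eq_zero_right hXc)
      have h6 : ((tc Q)⁻¹)ᵀ = ε • (tc Q)⁻¹ := by
        have h7 : ((tc Q)⁻¹)ᵀ = ((tc Q)ᵀ)⁻¹ := Matrix.transpose_nonsing_inv _
        rw [h7]
        refine Matrix.inv_eq_right_inv ?_
        rw [hQ, Matrix.smul_mul, Matrix.mul_smul, smul_smul, hε, one_smul,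
          Matrix.mul_nonsing_inv _ hu]
      rw [transpose_mul, h6, Matrix.mul_smul, Matrix.mul_smul, smul_smul, hε, one_smul,
        ← Matrix.mul_assoc, h5, Matrix.neg_mul, Matrix.mul_assoc, Matrix.mul_nonsing_inv _ hu,
        Matrix.mul_one]
    rw [Matrix.mul_smul, h3, transpose_smul, Matrix.mul_smul, smul_comm ε, h4, smul_neg,
      sub_neg_eq_add, ← add_smul]
    norm_num
  rwa [h2] at h1

end cls

end Pool.Agent.T2h17.HW
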