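import Mathlib

/-!
Linear algebra of the Hodge operator: a derivation of the field which moves a period matrix in a
direction of negative degree forces this direction to lie in every Lie algebra over the constants
which contains the Hodge operator.
-/

set_option autoImplicit false
set_option maxHeartbeats 400000

open Matrix

namespace Pool.Agent.T2h17.HW

variable {k L : Type} [Field k] [Field L] [Algebra k L] {ι : Type} [Fintype ι] [DecidableEq ι]

/-- the entry at `(a, b)` is zero if `lev b < lev a + i` -/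
def Up (lev : ι → ℤ) (i : ℤ) (Z : Matrix ι ι L) : Prop := ∀ a b, lev b < lev a + i → Z a b = 0

theorem Up.mul {lev : ι → ℤ} {i j : ℤ} {Z W : Matrix ι ι L} (hZ : Up lev i Z) (hW : Up lev j W) :
    Up lev (i + j) (Z * W) := by
  intro a b hab
  rw [Matrix.mul_apply]
  refine Finset.sum_eq_zero fun c _ => ?_
  rcases lt_or_ge (lev c) (lev a + i) with h | h
  · rw [hZ a c h, zero_mul]
  · rw [hW c b (by linarith), mul_zero]

theorem up_step {lev : ι → ℤ} {i : ℤ} {Z Φ0 : Matrix ι ι L} (hZ : Up lev i Z)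
    (hΦ : Up lev 1 (Φ0 - diagonal fun a => ((lev a : ℤ) : L))) :
    Up lev (i + 1) (Z * Φ0 - Φ0 * Z - ((i : ℤ) : L) • Z) := by
  set Λ : Matrix ι ι L := diagonal fun a => ((lev a : ℤ) : L) with hΛ
  have h1 : Z * Φ0 - Φ0 * Z - ((i : ℤ) : L) • Z = (Z * (Φ0 - Λ) - (Φ0 - Λ) * Z) +
      (Z * Λ - Λ * Z - ((i : ℤ) : L) • Z) := by
    rw [Matrix.mul_sub, Matrix.sub_mul]
    abel
  have h2 := hZ.mul hΦ
  have h3 := hΦ.mul hZ
  intro a b hab
  rw [h1, Matrix.add_apply, Matrix.sub_apply, h2 a b hab, h3 a b (by linarith), sub_zero, zero_add,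
    Matrix.sub_apply, Matrix.sub_apply, Matrix.smul_apply, hΛ, Matrix.mul_diagonal,
    Matrix.diagonal_mul, smul_eq_mul]
  rcases lt_or_ge (lev b) (lev a + i) with h | h
  · rw [hZ a b h]
    ring
  · have h4 : lev b = lev a + i := by linarith
    rw [h4]
    push_cast
    ring

theorem map_D_mul (D : Derivation k L L) {l m n : Type} [Fintype m] (A : Matrix l m L)
    (B : Matrix m n L) : (A * B).map D = A.map D * B + A * B.map D := by
  ext i j
  simp only [Matrix.map_apply, Matrix.mul_apply, Matrix.add_apply, map_sum, Derivation.leibniz,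
    smul_eq_mul, Finset.sum_add_distrib]
  rw [add_comm]
  congr 1
  exact Finset.sum_congr rfl fun _ _ => mul_comm _ _

/-- **the main lemma** -/
theorem main_lin (D : Derivation k L L) (lev : ι → ℤ) {P P' : Matrix ι ι L} (hP : P * P' = 1)
    (hP' : P' * P = 1) {Y Φ Φ0 : Matrix ι ι L} (hDP : P.map D = P * Y) (hΦ0 : P * Φ = Φ0 * P)
    (hsh : Up lev 1 (Φ0 - diagonal fun a => ((lev a : ℤ) : L))) {τ : Type} (x : τ → Matrix ι ι L)
    (hx : ∀ a, (x a).map D = 0)
    (hbr : ∀ a b, x a * x b - x b * x a ∈ Submodule.span L (Set.range x))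
    (hΦ : Φ ∈ Submodule.span L (Set.range x)) (i : L) (hi : ∀ m : ℕ, i ≠ (m : L))
    (hY : Y * Φ - Φ * Y = i • Y) : Y ∈ Submodule.span L (Set.range x) := by
  classical
  set V := Submodule.span L (Set.range x) with hV
  -- the derivatives of the elements of the Lie algebra
  have hD : ∀ Z ∈ V, Z.map D ∈ V := by
    intro Z hZ
    induction hZ using Submodule.span_induction with
    | mem Z h =>
      obtain ⟨a, rfl⟩ := h
      rw [hx a]
      exact V.zero_mem
    | zero =>
      have h1 : (0 : Matrix ι ι L).map D = 0 := by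
        ext a b
        simp
      rw [h1]
      exact V.zero_mem
    | add Z W _ _ hZ hW =>
      have h1 : (Z + W).map D = Z.map D + W.map D := by
        ext a b
        simp
      rw [h1]
      exact V.add_mem hZ hW
    | smul c Z hZ' hZ =>
      have h1 : (c • Z).map D = c • Z.map D + D c • Z := by
        ext a b
        simp only [Matrix.map_apply, Matrix.smul_apply, Matrix.add_apply, smul_eq_mul,
          Derivation.leibniz]
        ring
      rw [h1]
      exact V.add_mem (V.smul_mem _ hZ) (V.smul_mem _ hZ')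
  have hbr1 : ∀ a, ∀ W ∈ V, x a * W - W * x a ∈ V := by
    intro a W hW
    induction hW using Submodule.span_induction with
    | mem W h =>
      obtain ⟨b, rfl⟩ := h
      exact hbr a b
    | zero =>
      rw [Matrix.mul_zero, Matrix.zero_mul, sub_zero]
      exact V.zero_mem
    | add W W' _ _ h1 h2 =>
      have h3 : x a * (W + W') - (W + W') * x a = (x a * W - W * x a) + (x a * W' - W' * x a) := by
        rw [Matrix.mul_add, Matrix.add_mul]
        abel
      rw [h3]
      exact V.add_mem h1 h2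
    | smul c W _ h1 =>
      rw [Matrix.mul_smul, Matrix.smul_mul, ← smul_sub]
      exact V.smul_mem _ h1
  have hbr2 : ∀ Z ∈ V, Z * Φ - Φ * Z ∈ V := by
    intro Z hZ
    induction hZ using Submodule.span_induction with
    | mem Z h =>
      obtain ⟨a, rfl⟩ := h
      exact hbr1 a Φ hΦ
    | zero =>
      rw [Matrix.mul_zero, Matrix.zero_mul, sub_zero]
      exact V.zero_mem
    | add W W' _ _ h1 h2 =>
      have h3 : (W + W') * Φ - Φ * (W + W') = (W * Φ - Φ * W) + (W' * Φ - Φ * W') := by
        rw [Matrix.mul_add, Matrix.add_mul]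
        abel
      rw [h3]
      exact V.add_mem h1 h2
    | smul c W _ h1 =>
      rw [Matrix.mul_smul, Matrix.smul_mul, ← smul_sub]
      exact V.smul_mem _ h1
  have hΦP : Φ * P' = P' * Φ0 := by
    calc Φ * P' = P' * P * Φ * P' := by rw [hP', Matrix.one_mul]
      _ = P' * (P * Φ) * P' := by simp only [Matrix.mul_assoc]
      _ = P' * Φ0 * (P * P') := by rw [hΦ0]; simp only [Matrix.mul_assoc]
      _ = P' * Φ0 := by rw [hP, Matrix.mul_one]
  -- the equation
  have hZ0 : Up lev 1 (Φ0.map D) := by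
    intro a b hab
    have h1 := hsh a b hab
    rw [Matrix.sub_apply, sub_eq_zero] at h1
    rw [Matrix.map_apply, h1, Matrix.diagonal_apply]
    split_ifs
    · have : ((lev a : ℤ) : L) = algebraMap k L (lev a : k) := by simp
      rw [this, Derivation.map_algebraMap]
    · exact map_zero D
  have heq : i • Y = P' * Φ0.map D * P - Φ.map D := by
    have h1 := map_D_mul D P Φ
    rw [hΦ0, map_D_mul D Φ0 P, hDP] at h1
    have h2 : P * (Y * Φ - Φ * Y) = Φ0.map D * P - P * Φ.map D := by
      rw [Matrix.mul_sub, ← Matrix.mul_assoc, ← Matrix.mul_assoc, hΦ0]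
      have h3 : P * Y * Φ = Φ0.map D * P + Φ0 * (P * Y) - P * Φ.map D := by
        rw [h1]
        abel
      rw [h3]
      simp only [Matrix.mul_assoc]
      abel
    rw [← hY]
    calc Y * Φ - Φ * Y = P' * P * (Y * Φ - Φ * Y) := by rw [hP', Matrix.one_mul]
      _ = P' * (P * (Y * Φ - Φ * Y)) := by rw [Matrix.mul_assoc]
      _ = P' * Φ0.map D * P - P' * P * Φ.map D := by
          rw [h2, Matrix.mul_sub]
          simp only [Matrix.mul_assoc]
      _ = _ := by rw [hP', Matrix.one_mul]
  have key : ∀ m : ℕ, ∃ c : L, c ≠ 0 ∧ ∃ X ∈ V, ∃ Z : Matrix ι ι L, Up lev ((m : ℤ) + 1) Z ∧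
      c • Y = P' * Z * P + X := by
    intro m
    induction m with
    | zero =>
      refine ⟨i, by simpa using hi 0, -Φ.map D, V.neg_mem (hD Φ hΦ), Φ0.map D, ?_, ?_⟩
      · simpa using hZ0
      · rw [heq]
        abel
    | succ m ih =>
      obtain ⟨c, hc, X, hX, Z, hZ, h1⟩ := ih
      refine ⟨c * (i - ((m + 1 : ℕ) : L)), mul_ne_zero hc (sub_ne_zero.2 (hi _)),
        X * Φ - Φ * X - ((m + 1 : ℕ) : L) • X, V.sub_mem (hbr2 X hX) (V.smul_mem _ hX),
        Z * Φ0 - Φ0 * Z - (((m : ℤ) + 1 : ℤ) : L) • Z, ?_, ?_⟩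
      · have h2 := up_step hZ hsh
        push_cast at h2 ⊢
        exact h2
      · have h2 : (c • Y) * Φ - Φ * (c • Y) = (c * i) • Y := by
          rw [Matrix.smul_mul, Matrix.mul_smul, ← smul_sub, hY, smul_smul]
        have h3 : P' * (Z * Φ0 - Φ0 * Z) * P = P' * Z * P * Φ - Φ * (P' * Z * P) := by
          calc P' * (Z * Φ0 - Φ0 * Z) * P = P' * Z * (Φ0 * P) - (P' * Φ0) * Z * P := by
                rw [Matrix.mul_sub, Matrix.sub_mul]
                simp only [Matrix.mul_assoc]
            _ = P' * Z * (P * Φ) - (Φ * P') * Z * P := by rw [hΦ0, hΦP]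
            _ = _ := by simp only [Matrix.mul_assoc]
        have h4 : (c * (i - ((m + 1 : ℕ) : L))) • Y = (c * i) • Y - ((m + 1 : ℕ) : L) • (c • Y) := by
          rw [smul_smul, ← sub_smul]
          congr 1
          ring
        have h5 : ((((m : ℤ) + 1 : ℤ)) : L) = ((m + 1 : ℕ) : L) := by push_cast; rfl
        rw [h4, ← h2, h1, h5, Matrix.mul_sub P', Matrix.sub_mul _ _ P, h3, Matrix.add_mul,
          Matrix.mul_add, smul_add, Matrix.mul_smul, Matrix.smul_mul]
        abel
  -- the levels are bounded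
  obtain ⟨M, hM⟩ : ∃ M : ℕ, ∀ a b : ι, lev b < lev a + ((M : ℤ) + 1) := by
    obtain ⟨B, hB⟩ : ∃ B : ℤ, ∀ a b : ι, lev b - lev a ≤ B := by
      refine ⟨∑ p : ι × ι, |lev p.2 - lev p.1|, fun a b => ?_⟩
      refine (le_abs_self _).trans ?_
      exact Finset.single_le_sum (f := fun p : ι × ι => |lev p.2 - lev p.1|)
        (fun _ _ => abs_nonneg _) (Finset.mem_univ (a, b))
    refine ⟨B.toNat, fun a b => ?_⟩
    have h1 := hB a b
    have h2 := Int.self_le_toNat B
    linarith
  obtain ⟨c, hc, X, hX, Z, hZ, h1⟩ := key M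
  have hZ0 : Z = 0 := by
    ext a b
    exact hZ a b (hM a b)
  rw [hZ0, Matrix.mul_zero, Matrix.zero_mul, zero_add] at h1
  have h2 : Y = c⁻¹ • X := by
    rw [← h1, smul_smul, inv_mul_cancel₀ hc, one_smul]
  rw [h2]
  exact V.smul_mem _ hX

end Pool.Agent.T2h17.HW
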