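import Pool.Agent.T2h17.HW.Tan
import Pool.Agent.Y118.UL.Irr

/-!
The irreducibility of the orbits of the groups generated by unipotent one-parameter groups.
-/

set_option autoImplicit false
set_option maxHeartbeats 400000

open Matrix Polynomial

namespace Pool.Agent.T2h17.HW

/-! ### irreducibility -/

/-- polynomial paths in the group -/
def Pth {n : ℕ} (𝒩 : Set (Matrix (Fin n) (Fin n) ℂ)) (g : Matrix (Fin n) (Fin n) ℂ) : Prop :=
  ∃ M : Matrix (Fin n) (Fin n) ℂ[X], M.map (eval 0) = 1 ∧ M.map (eval 1) = g ∧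
    ∀ c, M.map (eval c) ∈ Grp 𝒩

theorem map_eval_mul {n : ℕ} (A B : Matrix (Fin n) (Fin n) ℂ[X]) (c : ℂ) :
    (A * B).map (eval c) = A.map (eval c) * B.map (eval c) := by
  ext i j
  simp [Matrix.mul_apply, eval_finsetSum]

theorem pth {n : ℕ} {𝒩 : Set (Matrix (Fin n) (Fin n) ℂ)} {g : Matrix (Fin n) (Fin n) ℂ}
    (hg : g ∈ Grp 𝒩) : Pth 𝒩 g := by
  have h1 : (1 : Matrix (Fin n) (Fin n) ℂ[X]).map (eval (0 : ℂ)) = 1 ∧ ∀ c : ℂ,
      (1 : Matrix (Fin n) (Fin n) ℂ[X]).map (eval c) = 1 := by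
    have h2 : ∀ c : ℂ, (1 : Matrix (Fin n) (Fin n) ℂ[X]).map (eval c) = 1 := by
      intro c
      ext i j
      rw [Matrix.map_apply, Matrix.one_apply, Matrix.one_apply]
      split_ifs <;> simp
    exact ⟨h2 0, h2⟩
  unfold Grp at hg
  induction hg using Submonoid.closure_induction with
  | mem g hg =>
    obtain ⟨N, hN, s, rfl⟩ := hg
    set M : Matrix (Fin n) (Fin n) ℂ[X] := ∑ a ∈ Finset.range n,
      (C (s ^ a / (a.factorial : ℂ)) * X ^ a : ℂ[X]) • (N ^ a).map C with hM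
    have hMe : ∀ c, M.map (eval c) = En N (s * c) := by
      intro c
      ext i j
      rw [hM, Matrix.map_apply, Matrix.sum_apply, eval_finsetSum, En, Matrix.sum_apply]
      refine Finset.sum_congr rfl fun a _ => ?_
      rw [Matrix.smul_apply, Matrix.smul_apply, smul_eq_mul, smul_eq_mul, Matrix.map_apply, eval_mul,
        eval_mul, eval_C, eval_C, eval_pow, eval_X]
      ring
    refine ⟨M, ?_, ?_, fun c => ?_⟩
    · rw [hMe, mul_zero, En_zero]
    · rw [hMe, mul_one]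
    · rw [hMe]
      exact Submonoid.subset_closure ⟨N, hN, _, rfl⟩
  | one => exact ⟨1, h1.1, h1.2 1, fun c => by rw [h1.2 c]; exact (Grp 𝒩).one_mem⟩
  | mul x y _ _ hx hy =>
    obtain ⟨M, a0, a1, a2⟩ := hx
    obtain ⟨M', b0, b1, b2⟩ := hy
    refine ⟨M * M', ?_, ?_, fun c => ?_⟩
    · rw [map_eval_mul, a0, b0, mul_one]
    · rw [map_eval_mul, a1, b1]
    · rw [map_eval_mul]
      exact (Grp 𝒩).mul_mem (a2 c) (b2 c)

/-- the orbit -/
def Orb {n : ℕ} {ι : Type} (𝒩 : Set (Matrix (Fin n) (Fin n) ℂ)) (D : Matrix (Fin n) (Fin n) ℂ)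
    (e : ι → Fin n × Fin n) : Set (ι → ℂ) :=
  {y | ∃ g ∈ Grp 𝒩, y = fun a => (D * g) (e a).1 (e a).2}

/-- **irreducibility** -/
theorem orb_irr {n : ℕ} {ι : Type} (𝒩 : Set (Matrix (Fin n) (Fin n) ℂ))
    (D : Matrix (Fin n) (Fin n) ℂ) (e : ι → Fin n × Fin n) :
    Pool.Agent.Y118.UL.Irr (Orb 𝒩 D e) := by
  intro P Q h
  by_contra hcon
  push Not at hcon
  obtain ⟨⟨_, ⟨g1, hg1, rfl⟩, h1⟩, ⟨_, ⟨g2, hg2, rfl⟩, h2⟩⟩ := hcon
  obtain ⟨M1, a0, a1, a2⟩ := pth hg1
  obtain ⟨M2, b0, b1, b2⟩ := pth hg2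
  set M1' : Matrix (Fin n) (Fin n) ℂ[X] := M1.map fun p => p.comp (1 - X) with hM1'
  have hM1e : ∀ c : ℂ, M1'.map (eval c) = M1.map (eval (1 - c)) := by
    intro c
    ext i j
    rw [hM1', Matrix.map_apply, Matrix.map_apply, Matrix.map_apply, eval_comp]
    congr 1
    rw [eval_sub, eval_one, eval_X]
  set N : Matrix (Fin n) (Fin n) ℂ[X] := D.map C * (M1' * M2) with hN
  have hCe : ∀ c : ℂ, (D.map C).map (eval c) = D := by
    intro c
    ext i j
    rw [Matrix.map_apply, Matrix.map_apply, eval_C]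
  have hNe : ∀ c, N.map (eval c) = D * (M1.map (eval (1 - c)) * M2.map (eval c)) := by
    intro c
    rw [hN, map_eval_mul, hCe, map_eval_mul, hM1e]
  have hev : ∀ (R : MvPolynomial ι ℂ) (c : ℂ), Polynomial.eval c (MvPolynomial.aeval (fun a => N (e a).1 (e a).2) R) =
      MvPolynomial.eval (fun a => (D * (M1.map (eval (1 - c)) * M2.map (eval c))) (e a).1 (e a).2) R := by
    intro R c
    have h3 : (Polynomial.aeval c : Polynomial ℂ →ₐ[ℂ] ℂ).comp (MvPolynomial.aeval (fun a => N (e a).1 (e a).2)) =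
        MvPolynomial.aeval (fun a => (D * (M1.map (eval (1 - c)) * M2.map (eval c))) (e a).1 (e a).2) := by
      refine MvPolynomial.algHom_ext fun a => ?_
      rw [AlgHom.comp_apply, MvPolynomial.aeval_X, MvPolynomial.aeval_X, ← hNe]
      rfl
    exact DFunLike.congr_fun h3 R
  set p := MvPolynomial.aeval (fun a => N (e a).1 (e a).2) P with hp
  set q := MvPolynomial.aeval (fun a => N (e a).1 (e a).2) Q with hq
  have hp0 : p ≠ 0 := by
    intro h0
    apply h1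
    have h3 := hev P 0
    rw [← hp, h0, Polynomial.eval_zero, sub_zero, a1, b0, mul_one] at h3
    exact h3.symm
  have hq0 : q ≠ 0 := by
    intro h0
    apply h2
    have h3 := hev Q 1
    rw [← hq, h0, Polynomial.eval_zero, sub_self, a0, b1, one_mul] at h3
    exact h3.symm
  obtain ⟨s, hs⟩ := Infinite.exists_notMem_finset (p * q).roots.toFinset
  have h3 : (p * q).eval s ≠ 0 := by
    intro h3
    exact hs (Multiset.mem_toFinset.2 ((Polynomial.mem_roots (mul_ne_zero hp0 hq0)).2 h3))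
  rw [Polynomial.eval_mul, hev, hev] at h3
  exact h3 (h _ ⟨_, (Grp 𝒩).mul_mem (a2 _) (b2 _), rfl⟩)

end Pool.Agent.T2h17.HW
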